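import Mathlib

/-!
# Rendezvous value and maximal average distance: definitions
-/

namespace Pool.Agent.Helper342.Reul

/-- The rendezvous value `a(E)`: the supremum over `n ≥ 1` and points `x_1, …, x_n ∈ E`
(not necessarily distinct) of `min_{y ∈ E} (1/n) ∑ i, |x_i - y|`. -/
noncomputable def rendezvous {X : Type*} [PseudoMetricSpace X] (E : Set X) : ℝ :=
  sSup {r : ℝ | ∃ (n : ℕ) (x : Fin n → X), 1 ≤ n ∧ (∀ i, x i ∈ E) ∧
    IsLeast {s : ℝ | ∃ y ∈ E, s = (1 / (n : ℝ)) * ∑ i, dist (x i) y} r}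

/-- The maximal average distance `b(E)`: the supremum over `n ≥ 1` and points
`x_1, …, x_n ∈ E` (not necessarily distinct) of `(1/n²) ∑ i, ∑ j, |x_i - x_j|`. -/
noncomputable def maxAvg {X : Type*} [PseudoMetricSpace X] (E : Set X) : ℝ :=
  sSup {r : ℝ | ∃ (n : ℕ) (x : Fin n → X), 1 ≤ n ∧ (∀ i, x i ∈ E) ∧
    r = (1 / (n : ℝ) ^ 2) * ∑ i, ∑ j, dist (x i) (x j)}

/-- The (solid) Reuleaux triangle with vertices `v 0, v 1, v 2`: the intersection of the three
closed discs of radius `1` centred at the vertices. -/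
def reuleaux {X : Type*} [PseudoMetricSpace X] (v : Fin 3 → X) : Set X :=
  ⋂ i, Metric.closedBall (v i) 1

end Pool.Agent.Helper342.Reul
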