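import Pool.Agent.Helper342.Reul.Main

namespace Pool.Agent.Helper342.Reul

open Set MeasureTheory Filter Topology
open scoped ENNReal NNReal

theorem pB_zero : pB 0 = pA th := by
  rw [pB, pA_zero, pA_th, ζ]; ring

theorem pC_zero : pC 0 = 0 := by
  rw [pC, pA_zero, omega_sq]; ring

theorem pB_th : pB th = 0 := by
  rw [pB, pA_th, zeta_eq]
  linear_combination (-1 : ℂ) * omega_cube

theorem pC_th : pC th = pA 0 := by
  rw [pC, pA_th, zeta_eq, pA_zero]
  linear_combination (-ω) * omega_cube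

theorem ker_zero (φ : ℝ) : ker φ 0 = 2 * ‖pA φ - pA 0‖ + 1 := by
  rw [ker, sub_zero, pB_th, pC_th, sub_zero, norm_pA]; ring

theorem ker_th (φ : ℝ) : ker φ th = 2 * ‖pA φ - pA th‖ + 1 := by
  rw [ker, sub_self, pB_zero, pC_zero, sub_zero, norm_pA]; ring

theorem norm_th : ‖pA th - pA 0‖ = 1 := by
  have h := norm_pA_sub_sq th 0
  rw [sub_zero, th, Real.cos_pi_div_three] at h
  have h0 := norm_nonneg (pA (Real.pi / 3) - pA 0)
  rw [th]
  nlinarith

theorem frontier_lt : rendezvous (frontier TT) < maxAvg (frontier TT) := by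
  by_contra hcon
  push Not at hcon
  obtain ⟨ν, hprob, hν, Λ, hΛ⟩ := exists_measure hcon
  have hthp := th_pos
  have hae := null_interior hν hΛ
  have hint : ∀ φ, ∫ t, ker φ t ∂ν = ν.real {0} * ker φ 0 + ν.real {th} * ker φ th := by
    intro φ
    have h1 : (fun t => ker φ t) =ᵐ[ν] fun t => ({0} : Set ℝ).indicator (fun _ => ker φ 0) t
        + ({th} : Set ℝ).indicator (fun _ => ker φ th) t := by
      filter_upwards [hae] with t ht
      rcases ht with rfl | rfl
      · rw [indicator_of_mem (by simp), indicator_of_notMem (by simp [hthp.ne])]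
        ring
      · rw [indicator_of_notMem (by simp [hthp.ne']), indicator_of_mem (by simp)]
        ring
    rw [integral_congr_ae h1, integral_add ((integrable_const _).indicator (measurableSet_singleton _))
      ((integrable_const _).indicator (measurableSet_singleton _)),
      integral_indicator_const _ (measurableSet_singleton _),
      integral_indicator_const _ (measurableSet_singleton _), smul_eq_mul, smul_eq_mul]
  have hmass : ν.real {0} + ν.real {th} = 1 := by
    have h1 : (fun _ : ℝ => (1 : ℝ)) =ᵐ[ν] fun t => ({0} : Set ℝ).indicator (fun _ => 1) t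
        + ({th} : Set ℝ).indicator (fun _ => 1) t := by
      filter_upwards [hae] with t ht
      rcases ht with rfl | rfl
      · rw [indicator_of_mem (by simp), indicator_of_notMem (by simp [hthp.ne])]
        ring
      · rw [indicator_of_notMem (by simp [hthp.ne']), indicator_of_mem (by simp)]
        ring
    have h2 : ∫ _, (1 : ℝ) ∂ν = 1 := by simp
    rw [integral_congr_ae h1, integral_add ((integrable_const _).indicator (measurableSet_singleton _))
      ((integrable_const _).indicator (measurableSet_singleton _)),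
      integral_indicator_const _ (measurableSet_singleton _),
      integral_indicator_const _ (measurableSet_singleton _), smul_eq_mul, smul_eq_mul] at h2
    linarith
  have e0 := hΛ 0 ⟨le_rfl, hthp.le⟩
  have e1 := hΛ th ⟨hthp.le, le_rfl⟩
  have e2 := hΛ (th / 2) ⟨by linarith, by linarith⟩
  rw [hint, ker_zero, ker_th] at e0 e1 e2
  have n1 : ‖pA 0 - pA th‖ = 1 := by rw [norm_sub_rev]; exact norm_th
  rw [n1, sub_self, norm_zero] at e0
  rw [norm_th, sub_self, norm_zero] at e1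
  have n2 : ‖pA (th / 2) - pA th‖ = ‖pA (th / 2) - pA 0‖ := by
    have := norm_pA_reflect (th / 2) 0
    rw [sub_zero, sub_half] at this
    exact this
  rw [n2] at e2
  have hx := norm_pA_sub_sq (th / 2) 0
  rw [sub_zero, th, show Real.pi / 3 / 2 = Real.pi / 6 by ring, Real.cos_pi_div_six] at hx
  rw [th, show Real.pi / 3 / 2 = Real.pi / 6 by ring] at e2
  rw [th] at e0 e1 hmass
  set m0 := ν.real {0}
  set m1 := ν.real {Real.pi / 3}
  set x := ‖pA (Real.pi / 6) - pA 0‖
  have hm : m0 = 1 / 2 := by linarith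
  have hm1 : m1 = 1 / 2 := by linarith
  rw [hm, hm1] at e2 e0
  have hx2 : x = 1 / 2 := by linarith
  rw [hx2] at hx
  have h3 : √3 = 7 / 4 := by linarith
  have := sqrt3_sq
  rw [h3] at this
  norm_num at this

/-! ### The solid triangle -/

theorem center_bound {a0 a1 a2 S : ℝ} (hsum : a0 + a1 + a2 = 0)
    (hS : S = 2 * (a0 ^ 2 + a1 ^ 2 + a2 ^ 2)) (h0 : S - 2 * a0 ≤ 2 / 3) (h1 : S - 2 * a1 ≤ 2 / 3)
    (h2 : S - 2 * a2 ≤ 2 / 3) : S ≤ 1 / 3 := by
  set δ := (2 / 3 - S) / 2 with hδ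
  have k0 : 0 ≤ a0 + δ := by linarith
  have k1 : 0 ≤ a1 + δ := by linarith
  have k2 : 0 ≤ a2 + δ := by linarith
  have hδ0 : 0 ≤ δ := by linarith
  have key : a0 ^ 2 + a1 ^ 2 + a2 ^ 2 ≤ 6 * δ ^ 2 := by
    have e : (a0 + δ) * (a1 + δ) + (a1 + δ) * (a2 + δ) + (a2 + δ) * (a0 + δ)
        = -(a0 ^ 2 + a1 ^ 2 + a2 ^ 2) / 2 + 3 * δ ^ 2 := by
      have h3 : a2 = -a0 - a1 := by linarith
      rw [h3]; ring
    have := mul_nonneg k0 k1
    have := mul_nonneg k1 k2
    have := mul_nonneg k2 k0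
    linarith
  by_contra hc
  push Not at hc
  have h4 : S / 2 ≤ 6 * δ ^ 2 := by linarith
  have h5 : δ < 1 / 6 := by linarith
  nlinarith

theorem solid_center {z : ℂ} (hz : z ∈ TT) : dist z ((1 + ζ) / 3) ≤ 1 / √3 := by
  obtain ⟨h1, h2, h3⟩ := hz
  have hr := sqrt3_sq
  have hzre : ζ.re = 1 / 2 := by simp [ζ, ω]; norm_num
  have hzim : ζ.im = √3 / 2 := by simp [ζ, ω]
  have e0 : ((1 + ζ) / 3 : ℂ).re = 1 / 2 := by
    have : ((1 + ζ) / 3 : ℂ).re = (1 + ζ.re) / 3 := by simp
    rw [this, hzre]; norm_num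
  have e1 : ((1 + ζ) / 3 : ℂ).im = √3 / 6 := by
    have : ((1 + ζ) / 3 : ℂ).im = ζ.im / 3 := by simp
    rw [this, hzim]; ring
  have k1 : z.re ^ 2 + z.im ^ 2 ≤ 1 := by
    rw [← norm_sq_eq]; exact pow_le_one₀ (norm_nonneg _) h1
  have k2 : (z.re - 1) ^ 2 + z.im ^ 2 ≤ 1 := by
    have : ‖z - 1‖ ^ 2 ≤ 1 := pow_le_one₀ (norm_nonneg _) h2
    rw [norm_sq_eq] at this
    simpa using this
  have k3 : (z.re - 1 / 2) ^ 2 + (z.im - √3 / 2) ^ 2 ≤ 1 := by
    have : ‖z - ζ‖ ^ 2 ≤ 1 := pow_le_one₀ (norm_nonneg _) h3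
    rw [norm_sq_eq, Complex.sub_re, Complex.sub_im, hzre, hzim] at this
    exact this
  have hgoal : ‖z - (1 + ζ) / 3‖ ^ 2 ≤ 1 / 3 := by
    rw [norm_sq_eq, Complex.sub_re, Complex.sub_im, e0, e1]
    set x := z.re - 1 / 2 with hx
    set y := z.im - √3 / 6 with hy
    have hx' : z.re = x + 1 / 2 := by linarith
    have hy' : z.im = y + √3 / 6 := by linarith
    rw [hx', hy'] at k1 k2
    have hy3 : z.im - √3 / 2 = y - √3 / 3 := by linarith
    rw [hy3] at k3
    generalize (√3 : ℝ) = r at *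
    have q0 : (x + 1 / 2) ^ 2 + (y + r / 6) ^ 2 = (x ^ 2 + y ^ 2) - 2 * (-(x / 2) - r * y / 6) + 1 / 3 := by
      linear_combination (1 / 36) * hr
    have q1 : (x + 1 / 2 - 1) ^ 2 + (y + r / 6) ^ 2 = (x ^ 2 + y ^ 2) - 2 * ((x / 2) - r * y / 6) + 1 / 3 := by
      linear_combination (1 / 36) * hr
    have q2 : x ^ 2 + (y - r / 3) ^ 2 = (x ^ 2 + y ^ 2) - 2 * (r * y / 3) + 1 / 3 := by
      linear_combination (1 / 9) * hr
    rw [q0] at k1
    rw [q1] at k2
    rw [q2] at k3
    apply center_bound (a0 := -(x / 2) - r * y / 6) (a1 := (x / 2) - r * y / 6)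
      (a2 := r * y / 3)
    · ring
    · linear_combination (-(y ^ 2) / 3) * hr
    · linarith
    · linarith
    · linarith
  rw [dist_eq_norm]
  have h4 : (1 / √3) ^ 2 = 1 / 3 := by rw [div_pow, hr]; norm_num
  rw [← h4] at hgoal
  exact (pow_le_pow_iff_left₀ (norm_nonneg _) (by positivity) two_ne_zero).1 hgoal

theorem zeta_sub_one : ‖ζ - 1‖ = 1 := by
  rw [← pA_th, ← pA_zero]; exact norm_th

theorem norm_zeta : ‖ζ‖ = 1 := by rw [← pA_th]; exact norm_pA _

theorem center_mem : (1 + ζ) / 3 ∈ TT := by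
  have hr := sqrt3_sq
  have hzre : ζ.re = 1 / 2 := by simp [ζ, ω]; norm_num
  have hzim : ζ.im = √3 / 2 := by simp [ζ, ω]
  have e0 : ((1 + ζ) / 3 : ℂ).re = 1 / 2 := by
    have : ((1 + ζ) / 3 : ℂ).re = (1 + ζ.re) / 3 := by simp
    rw [this, hzre]; norm_num
  have e1 : ((1 + ζ) / 3 : ℂ).im = √3 / 6 := by
    have : ((1 + ζ) / 3 : ℂ).im = ζ.im / 3 := by simp
    rw [this, hzim]; ring
  have key : ∀ w : ℂ, ‖w‖ ^ 2 ≤ 1 → ‖w‖ ≤ 1 := fun w hw => by
    have := norm_nonneg w
    nlinarith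
  refine ⟨key _ ?_, key _ ?_, key _ ?_⟩
  · rw [norm_sq_eq, e0, e1]
    nlinarith
  · rw [norm_sq_eq, Complex.sub_re, Complex.sub_im, e0, e1, Complex.one_re, Complex.one_im]
    nlinarith
  · rw [norm_sq_eq, Complex.sub_re, Complex.sub_im, e0, e1, hzre, hzim]
    nlinarith

theorem solid_lt : rendezvous TT < maxAvg TT := by
  have h1 : rendezvous TT ≤ 1 / √3 :=
    rendezvous_le_of_center center_mem (by positivity) (fun z hz => solid_center hz)
  have h2 : 6 ≤ maxAvg TT * 9 := by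
    have h3 := sum_le_maxAvg (ι := Fin 3) TT_compact.isBounded ![(0 : ℂ), 1, ζ] (by
      intro i
      fin_cases i
      · refine ⟨by simp, by simp, ?_⟩
        simp [norm_zeta]
      · refine ⟨by simp, by simp, ?_⟩
        simp only [Fin.mk_one, Matrix.cons_val_one]
        rw [norm_sub_rev]
        exact zeta_sub_one.le
      · refine ⟨?_, ?_, by simp⟩
        · exact norm_zeta.le
        · exact zeta_sub_one.le)
    simp only [Fin.sum_univ_three, Fintype.card_fin, Matrix.cons_val_zero, Matrix.cons_val_one,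
      Matrix.cons_val, dist_eq_norm, zero_sub, sub_zero, norm_neg, norm_one, norm_zeta,
      zeta_sub_one] at h3
    rw [norm_sub_rev 1 ζ, zeta_sub_one] at h3
    norm_num at h3
    linarith
  have h3 : 1 / √3 < 2 / 3 := by
    rw [div_lt_div_iff₀ (by positivity) (by norm_num)]
    have := sqrt3_bounds.1
    linarith
  linarith

end Pool.Agent.Helper342.Reul
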