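import Pool.Agent.Helper342.Reul.Trig

namespace Pool.Agent.Helper342.Reul

open Set

theorem S1_ge {φ t : ℝ} (h0 : 0 < φ) (h1 : φ ≤ 1 / 2000) (ht : t ∈ Icc 0 th) :
    0.99 * (Real.sin (t / 2) + Real.sin (φ / 2)) ≤ Real.sin (φ + t / 2) := by
  rw [Real.sin_add, sin_eq_half φ, cos_eq_half φ]
  obtain ⟨hu0, hu1, hv0, hv1⟩ := uv_bounds ht
  obtain ⟨hs0, hs1, hc0, hc1⟩ := sc_bounds h0 h1
  obtain ⟨r0, r1⟩ := sqrt3_bounds
  have hs2 : Real.sin (φ / 2) ≤ 1 / 4000 := by linarith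
  generalize Real.sin (t / 2) = u at *
  generalize Real.cos (t / 2) = v at *
  generalize Real.sin (φ / 2) = s at *
  generalize Real.cos (φ / 2) = c at *
  have hv : 0.866 ≤ v := by linarith
  have hcv : 0.8 ≤ c * v := by nlinarith
  have e1 : s ≤ 2 * s * c * v := by nlinarith
  have e2 : 0.99 * u ≤ (1 - 2 * s ^ 2) * u := by
    apply mul_le_mul_of_nonneg_right _ hu0
    nlinarith
  linarith

theorem Db5_ge {φ t : ℝ} (h0 : 0 < φ) (h1 : φ ≤ 1 / 2000) (ht : t ∈ Icc 0 th) :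
    0.99 ≤ √(XX (Ab t) (Bb t) (Cb t) φ) ^ 5 := by
  have h := XXb_ge h0 h1 ht
  have h2 : 0.999 ≤ √(XX (Ab t) (Bb t) (Cb t) φ) := by
    apply Real.le_sqrt_of_sq_le
    linarith [show (0.999 : ℝ) ^ 2 ≤ 0.999 by norm_num]
  calc (0.99 : ℝ) ≤ 0.999 ^ 5 := by norm_num
    _ ≤ _ := by gcongr

theorem Da_le {φ t : ℝ} (h0 : 0 < φ) (h1 : φ ≤ 1 / 2000) (ht : t ∈ Icc 0 th) :
    √(XX (Aa t) (Ba t) (Ca t) φ) ≤ 2 * (Real.sin (t / 2) + Real.sin (φ / 2)) := by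
  have h := XXa_le h0 h1 ht
  obtain ⟨hu0, hu1, hv0, hv1⟩ := uv_bounds ht
  obtain ⟨hs0, hs1, hc0, hc1⟩ := sc_bounds h0 h1
  apply Real.sqrt_le_iff.2
  constructor
  · positivity
  · nlinarith [mul_nonneg hu0 hs0.le]

theorem vu_nonneg {t : ℝ} (ht : t ∈ Icc 0 th) :
    0 ≤ Real.cos (t / 2) - √3 * Real.sin (t / 2) := by
  obtain ⟨hu0, hu1, hv0, hv1⟩ := uv_bounds ht
  have : √3 * Real.sin (t / 2) ≤ √3 * (1 / 2) := by gcongr
  linarith

theorem vu_pos {t : ℝ} (ht : t ∈ Icc 0 th) (ht2 : t < th) :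
    0 < Real.cos (t / 2) - √3 * Real.sin (t / 2) := by
  obtain ⟨hu0, hu1, hv0, hv1⟩ := uv_bounds ht
  have hpi := Real.pi_pos
  have hth : th = Real.pi / 3 := rfl
  have h2 : Real.sin (t / 2) < 1 / 2 := by
    rw [← Real.sin_pi_div_six]
    exact Real.sin_lt_sin_of_lt_of_le_pi_div_two (by linarith [ht.1]) (by linarith) (by linarith)
  have h3 : 0 < √3 := by positivity
  have : √3 * Real.sin (t / 2) < √3 * (1 / 2) := by gcongr
  linarith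

/-- the bound from below near `t = 0`. -/
theorem W_ge_neg {φ t : ℝ} (h0 : 0 < φ) (h1 : φ ≤ 1 / 2000) (ht : t ∈ Icc 0 th) :
    - t ≤ W φ t := by
  rw [W_eq]
  have hD := Db5_ge h0 h1 ht
  have hS := S1_ge h0 h1 ht
  have hvu := vu_nonneg ht
  obtain ⟨hu0, hu1, hv0, hv1⟩ := uv_bounds ht
  obtain ⟨hs0, hs1, hc0, hc1⟩ := sc_bounds h0 h1
  have hS0 : 0 ≤ Real.sin (φ + t / 2) := by
    have : 0 ≤ 0.99 * (Real.sin (t / 2) + Real.sin (φ / 2)) := by positivity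
    linarith
  have hX := Real.sqrt_pos.2 (XXa_pos h0 h1 ht)
  have e1 : 0 ≤ 3 / 8 * (4 * Real.sin (t / 2) ^ 2 * (√3 * Real.cos (t / 2) - Real.sin (t / 2)) ^ 2
      * (2 * (Real.cos (t / 2) - √3 * Real.sin (t / 2)) * Real.sin (φ + t / 2))
      / √(XX (Aa t) (Ba t) (Ca t) φ) ^ 5) := by positivity
  have hsin : Real.sin (t / 2) ≤ t / 2 := Real.sin_le (by linarith [ht.1])
  have hN : (1 - 4 * Real.sin (t / 2) ^ 2) ^ 2 ≤ 1 := by
    have a1 : 0 ≤ 1 - 4 * Real.sin (t / 2) ^ 2 := by nlinarith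
    have a2 : 1 - 4 * Real.sin (t / 2) ^ 2 ≤ 1 := by nlinarith
    nlinarith
  have hC : Real.cos (φ + t / 2) ≤ 1 := Real.cos_le_one _
  have e2 : (1 - 4 * Real.sin (t / 2) ^ 2) ^ 2 * (4 * Real.sin (t / 2) * Real.cos (φ + t / 2))
      ≤ 2 * t := by
    have b1 : 4 * Real.sin (t / 2) * Real.cos (φ + t / 2) ≤ 4 * Real.sin (t / 2) := by
      nlinarith
    have b2 : (1 - 4 * Real.sin (t / 2) ^ 2) ^ 2 * (4 * Real.sin (t / 2) * Real.cos (φ + t / 2))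
      ≤ (1 - 4 * Real.sin (t / 2) ^ 2) ^ 2 * (4 * Real.sin (t / 2)) :=
      mul_le_mul_of_nonneg_left b1 (sq_nonneg _)
    have b3 : (1 - 4 * Real.sin (t / 2) ^ 2) ^ 2 * (4 * Real.sin (t / 2))
      ≤ 1 * (4 * Real.sin (t / 2)) := mul_le_mul_of_nonneg_right hN (by positivity)
    linarith
  have e3 : (1 - 4 * Real.sin (t / 2) ^ 2) ^ 2 * (4 * Real.sin (t / 2) * Real.cos (φ + t / 2))
      / √(XX (Ab t) (Bb t) (Cb t) φ) ^ 5 ≤ 2 * t / 0.99 := by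
    apply div_le_div₀ (by linarith [ht.1]) e2 (by norm_num) hD
  have e4 : 2 * t / 0.99 ≤ 8 / 3 * t := by
    rw [div_le_iff₀ (by norm_num)]
    nlinarith [ht.1]
  linarith

theorem poly1 {u s : ℝ} (hu : 0 < u) (hu1 : u ≤ 1 / 2) (hs : 0 < s) (hs1 : s ≤ 1 / 4000)
    (hus : 0.6e-7 * s ≤ u) : (1 - 4 * u ^ 2) * (u + s) ^ 4 ≤ 0.03 * u := by
  have h4 : 0 ≤ 1 - 4 * u ^ 2 := by nlinarith
  have h4' : 1 - 4 * u ^ 2 ≤ 1 := by nlinarith
  have hpoly : (1 - 4 * u ^ 2) * u ^ 3 ≤ 0.0235 := by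
    -- max of u^3 - 4u^5 at u^2 = 3/20
    nlinarith [mul_nonneg hu.le (sq_nonneg (u ^ 2 - 3 / 20)), sq_nonneg (u - 0.3873),
      mul_nonneg hu.le (sq_nonneg (u - 0.3873)), mul_nonneg (sq_nonneg u) (sq_nonneg (u - 0.3873)),
      mul_nonneg (pow_nonneg hu.le 3) (sq_nonneg (u - 0.3873))]
  rcases le_or_gt (1 / 10) u with h | h
  · have h5 : u + s ≤ u * (401 / 400) := by linarith
    have h6 : (u + s) ^ 4 ≤ (u * (401 / 400)) ^ 4 := by gcongr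
    have h7 : (1 - 4 * u ^ 2) * (u + s) ^ 4 ≤ (1 - 4 * u ^ 2) * (u * (401 / 400)) ^ 4 :=
      mul_le_mul_of_nonneg_left h6 h4
    have h8 : (1 - 4 * u ^ 2) * (u * (401 / 400)) ^ 4 = (401 / 400) ^ 4 * u * ((1 - 4 * u ^ 2) * u ^ 3) := by ring
    have h9 : (401 / 400) ^ 4 * u * ((1 - 4 * u ^ 2) * u ^ 3) ≤ (401 / 400) ^ 4 * u * 0.0235 := by
      gcongr
    nlinarith
  · rcases le_or_gt s u with h5 | h5
    · have h6 : (u + s) ^ 4 ≤ (2 * u) ^ 4 := by gcongr; linarith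
      have h7 : (1 - 4 * u ^ 2) * (u + s) ^ 4 ≤ 1 * (u + s) ^ 4 :=
        mul_le_mul_of_nonneg_right h4' (by positivity)
      have h8 : (2 * u) ^ 4 = 16 * u * u ^ 3 := by ring
      have h9 : u ^ 3 ≤ (1 / 10) ^ 3 := by gcongr
      have h10 : 16 * u * u ^ 3 ≤ 16 * u * (1 / 10) ^ 3 := by gcongr
      nlinarith
    · have h6 : (u + s) ^ 4 ≤ (2 * s) ^ 4 := by gcongr; linarith
      have h7 : (1 - 4 * u ^ 2) * (u + s) ^ 4 ≤ 1 * (u + s) ^ 4 :=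
        mul_le_mul_of_nonneg_right h4' (by positivity)
      have h8 : (2 * s) ^ 4 = 16 * s * s ^ 3 := by ring
      have h9 : s ^ 3 ≤ (1 / 4000) ^ 3 := by gcongr
      have h10 : 16 * s * s ^ 3 ≤ 16 * s * (1 / 4000) ^ 3 := by gcongr
      nlinarith

theorem u_ge {φ t : ℝ} (h0 : 0 < φ) (h1 : φ ≤ 1 / 2000) (ht : t ∈ Icc 0 th)
    (hφt : 1e-7 * φ ≤ t) : 0.6e-7 * Real.sin (φ / 2) ≤ Real.sin (t / 2) := by
  have hpi := Real.pi_pos
  have hpi2 := Real.pi_lt_d2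
  have hth : th = Real.pi / 3 := rfl
  have h2 := Real.mul_le_sin (x := t / 2) (by linarith [ht.1]) (by linarith [ht.2])
  obtain ⟨hs0, hs1, hc0, hc1⟩ := sc_bounds h0 h1
  have h3 : 0.6 ≤ 2 / Real.pi := by
    rw [le_div_iff₀ hpi]; nlinarith
  have h4 : 0.6 * (t / 2) ≤ 2 / Real.pi * (t / 2) :=
    mul_le_mul_of_nonneg_right h3 (by linarith [ht.1])
  linarith

theorem W_pos {φ t : ℝ} (h0 : 0 < φ) (h1 : φ ≤ 1 / 2000) (ht : t ∈ Icc 0 th) (ht2 : t < th)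
    (hφt : 1e-7 * φ ≤ t) : 0 < W φ t := by
  rw [W_eq]
  have hD := Db5_ge h0 h1 ht
  have hDa := Da_le h0 h1 ht
  have hS := S1_ge h0 h1 ht
  have hvu := vu_pos ht ht2
  have huge := u_ge h0 h1 ht hφt
  obtain ⟨hu0, hu1, hv0, hv1⟩ := uv_bounds ht
  obtain ⟨hs0, hs1, hc0, hc1⟩ := sc_bounds h0 h1
  obtain ⟨r0, r1⟩ := sqrt3_bounds
  have r3 := sqrt3_sq
  have hX := Real.sqrt_pos.2 (XXa_pos h0 h1 ht)
  have hXb := Real.sqrt_pos.2 (XXb_pos h0 h1 ht)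
  have hs2 : Real.sin (φ / 2) ≤ 1 / 4000 := by linarith
  have hu : 0 < Real.sin (t / 2) := lt_of_lt_of_le (by positivity) huge
  have hpoly := poly1 hu hu1 hs0 hs2 huge
  have hC : Real.cos (φ + t / 2) ≤ 1 := Real.cos_le_one _
  have huv := Real.sin_sq_add_cos_sq (t / 2)
  generalize hSS : Real.sin (φ + t / 2) = S at *
  generalize hCC : Real.cos (φ + t / 2) = C at *
  generalize Real.sin (t / 2) = u at *
  generalize Real.cos (t / 2) = v at *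
  generalize Real.sin (φ / 2) = s at *
  generalize Real.cos (φ / 2) = c at *
  generalize √(XX (Aa t) (Ba t) (Ca t) φ) = Da at *
  generalize √(XX (Ab t) (Bb t) (Cb t) φ) = Db at *
  generalize (√3 : ℝ) = r at *
  rw [← mul_sub]
  apply mul_pos (by norm_num)
  rw [sub_pos, div_lt_div_iff₀ (by positivity) (by positivity)]
  -- bounds
  have hrv : 1 ≤ r * v - u := by
    have : r * (r / 2) ≤ r * v := by gcongr
    nlinarith only [this, r3, hu1]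
  have hrv2 : 1 ≤ (r * v - u) ^ 2 := by nlinarith only [hrv]
  have hvru : v + r * u ≤ 2 := by
    have e : (v + r * u) ^ 2 + (r * v - u) ^ 2 = 4 := by
      linear_combination 4 * huv + (u ^ 2 + v ^ 2) * r3
    nlinarith only [e, sq_nonneg (r * v - u)]
  have h14 : 1 - 4 * u ^ 2 = (v - r * u) * (v + r * u) := by
    linear_combination (-1 : ℝ) * huv + u ^ 2 * r3
  have h14' : 0 ≤ 1 - 4 * u ^ 2 := by nlinarith only [hu1, hu]
  have hb : (1 - 4 * u ^ 2) ^ 2 * (4 * u * C) ≤ (1 - 4 * u ^ 2) * ((v - r * u) * 2) * (4 * u) := by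
    have b1 : (1 - 4 * u ^ 2) ^ 2 * (4 * u * C) ≤ (1 - 4 * u ^ 2) ^ 2 * (4 * u) := by
      exact mul_le_mul_of_nonneg_left (mul_le_of_le_one_right (by positivity) hC) (sq_nonneg _)
    have b2 : (1 - 4 * u ^ 2) ^ 2 * (4 * u) = (1 - 4 * u ^ 2) * ((v - r * u) * (v + r * u)) * (4 * u) := by
      rw [← h14]; ring
    have b3 : (1 - 4 * u ^ 2) * ((v - r * u) * (v + r * u)) * (4 * u)
      ≤ (1 - 4 * u ^ 2) * ((v - r * u) * 2) * (4 * u) := by gcongr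
    linarith
  have hDa5 : Da ^ 5 ≤ (2 * (u + s)) ^ 5 := by gcongr
  have ha : 4 * u ^ 2 * 1 * (2 * (v - r * u) * (0.99 * (u + s)))
      ≤ 4 * u ^ 2 * (r * v - u) ^ 2 * (2 * (v - r * u) * S) := by gcongr
  calc (1 - 4 * u ^ 2) ^ 2 * (4 * u * C) * Da ^ 5
      ≤ ((1 - 4 * u ^ 2) * ((v - r * u) * 2) * (4 * u)) * (2 * (u + s)) ^ 5 := by
        apply mul_le_mul hb hDa5 (by positivity) (by positivity)
    _ = ((1 - 4 * u ^ 2) * (u + s) ^ 4) * (256 * u * (v - r * u) * (u + s)) := by ring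
    _ ≤ (0.03 * u) * (256 * u * (v - r * u) * (u + s)) := by
        apply mul_le_mul_of_nonneg_right hpoly (by positivity)
    _ < (4 * u ^ 2 * 1 * (2 * (v - r * u) * (0.99 * (u + s)))) * 0.99 := by
        have : 0 < u ^ 2 * (v - r * u) * (u + s) := by positivity
        nlinarith only [this]
    _ ≤ (4 * u ^ 2 * (r * v - u) ^ 2 * (2 * (v - r * u) * S)) * Db ^ 5 := by
        apply mul_le_mul ha hD (by norm_num)
        exact le_trans (by positivity) ha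

theorem W_nonneg {φ t : ℝ} (h0 : 0 < φ) (h1 : φ ≤ 1 / 2000) (ht : t ∈ Icc 0 th)
    (hφt : 1e-7 * φ ≤ t) : 0 ≤ W φ t := by
  rcases lt_or_eq_of_le ht.2 with h | h
  · exact (W_pos h0 h1 ht h hφt).le
  · rw [W_eq]
    have h6 : t / 2 = Real.pi / 6 := by rw [h, th]; ring
    have h7 : Real.cos (t / 2) - √3 * Real.sin (t / 2) = 0 := by
      rw [h6, Real.cos_pi_div_six, Real.sin_pi_div_six]; ring
    have h8 : 1 - 4 * Real.sin (t / 2) ^ 2 = 0 := by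
      rw [h6, Real.sin_pi_div_six]; norm_num
    rw [h7, h8]
    simp

end Pool.Agent.Helper342.Reul
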