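import Pool.Agent.Helper342.Reul.Meas

namespace Pool.Agent.Helper342.Reul

open Complex Set Metric MeasureTheory Filter Topology
open scoped ENNReal

noncomputable def Aa (t : ℝ) : ℝ := 3 - Real.cos t - √3 * Real.sin t
noncomputable def Ba (t : ℝ) : ℝ := 1 + Real.cos t - √3 * Real.sin t
noncomputable def Ca (t : ℝ) : ℝ := √3 - √3 * Real.cos t - Real.sin t
noncomputable def Ab (t : ℝ) : ℝ := 3 - 2 * Real.cos t
noncomputable def Bb (t : ℝ) : ℝ := 2 - 2 * Real.cos t
noncomputable def Cb (t : ℝ) : ℝ := 2 * Real.sin t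

/-- `X φ = A - B cos φ - C sin φ` -/
noncomputable def XX (A B C φ : ℝ) : ℝ := A - B * Real.cos φ - C * Real.sin φ
/-- derivative of `XX` -/
noncomputable def XX1 (B C φ : ℝ) : ℝ := B * Real.sin φ - C * Real.cos φ

theorem pB_re (t : ℝ) : (pB (th - t)).re = 1 - Real.cos t := by
  have : pB (th - t) = 1 - (starRingEnd ℂ) (pA t) := by
    rw [pB, pA_reflect, zeta_eq]
    linear_combination (-(starRingEnd ℂ) (pA t)) * omega_cube
  rw [this]
  simp [pA_re]

theorem pB_im (t : ℝ) : (pB (th - t)).im = Real.sin t := by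
  have : pB (th - t) = 1 - (starRingEnd ℂ) (pA t) := by
    rw [pB, pA_reflect, zeta_eq]
    linear_combination (-(starRingEnd ℂ) (pA t)) * omega_cube
  rw [this]
  simp [pA_im]

theorem pC_eq (t : ℝ) : pC (th - t) = ζ - ω * (starRingEnd ℂ) (pA t) := by
  rw [pC, pA_reflect, ζ]
  linear_combination ((starRingEnd ℂ) (pA t)) * (omega_sq + omega_cube)

theorem pC_re (t : ℝ) : (pC (th - t)).re = (1 + Real.cos t - √3 * Real.sin t) / 2 := by
  rw [pC_eq]
  simp [pA_re, pA_im, ζ, ω]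
  ring

theorem pC_im (t : ℝ) : (pC (th - t)).im = (√3 - √3 * Real.cos t - Real.sin t) / 2 := by
  rw [pC_eq]
  simp [pA_re, pA_im, ζ, ω]
  ring

theorem norm_AA (φ t : ℝ) : ‖pA φ - pA t‖ = 2 * |Real.sin ((φ - t) / 2)| := by
  have h := norm_pA_sub_sq φ t
  have h2 : Real.cos (φ - t) = 1 - 2 * Real.sin ((φ - t) / 2) ^ 2 := by
    have := Real.cos_two_mul ((φ - t) / 2)
    rw [show 2 * ((φ - t) / 2) = φ - t by ring] at this
    rw [this]
    have := Real.sin_sq_add_cos_sq ((φ - t) / 2)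
    linarith
  rw [h2] at h
  have h3 : ‖pA φ - pA t‖ ^ 2 = (2 * |Real.sin ((φ - t) / 2)|) ^ 2 := by
    rw [h, mul_pow, sq_abs]; ring
  exact (pow_left_inj₀ (norm_nonneg _) (by positivity) two_ne_zero).1 h3

theorem norm_AB (φ t : ℝ) : ‖pA φ - pB (th - t)‖ = √(XX (Ab t) (Bb t) (Cb t) φ) := by
  rw [← Real.sqrt_sq (norm_nonneg (pA φ - pB (th - t)))]
  congr 1
  rw [norm_sq_eq, Complex.sub_re, Complex.sub_im, pA_re, pA_im, pB_re, pB_im]
  unfold XX Ab Bb Cb
  nlinarith [Real.sin_sq_add_cos_sq φ, Real.sin_sq_add_cos_sq t]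

theorem norm_AC (φ t : ℝ) : ‖pA φ - pC (th - t)‖ = √(XX (Aa t) (Ba t) (Ca t) φ) := by
  rw [← Real.sqrt_sq (norm_nonneg (pA φ - pC (th - t)))]
  congr 1
  rw [norm_sq_eq, Complex.sub_re, Complex.sub_im, pA_re, pA_im, pC_re, pC_im]
  unfold XX Aa Ba Ca
  have h1 := Real.sin_sq_add_cos_sq φ
  have h2 := Real.sin_sq_add_cos_sq t
  have h3 := sqrt3_sq
  generalize Real.sin φ = a at *
  generalize Real.cos φ = b at *
  generalize Real.sin t = c at *
  generalize Real.cos t = d at *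
  generalize (√3 : ℝ) = r at *
  linear_combination h1 + h2 + ((c^2 + 1 + d^2 - 2 * d)/4) * h3

theorem ker_eq (φ t : ℝ) : ker φ t = 2 * |Real.sin ((φ - t) / 2)|
    + √(XX (Ab t) (Bb t) (Cb t) φ) + √(XX (Aa t) (Ba t) (Ca t) φ) := by
  rw [ker, norm_AA, norm_AB, norm_AC]

/-! ### Calculus of the kernels -/

theorem hasDerivAt_XX (A B C φ : ℝ) : HasDerivAt (XX A B C) (XX1 B C φ) φ := by
  unfold XX XX1
  have h1 := (Real.hasDerivAt_cos φ).const_mul B
  have h2 := (Real.hasDerivAt_sin φ).const_mul C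
  have h := ((hasDerivAt_const φ A).sub h1).sub h2
  exact h.congr_deriv (by ring)

theorem hasDerivAt_XX1 (A B C φ : ℝ) : HasDerivAt (XX1 B C) (A - XX A B C φ) φ := by
  unfold XX XX1
  have h1 := (Real.hasDerivAt_sin φ).const_mul B
  have h2 := (Real.hasDerivAt_cos φ).const_mul C
  have h := h1.sub h2
  exact h.congr_deriv (by ring)

/-- `∂_φ √X` -/
noncomputable def D1 (A B C φ : ℝ) : ℝ := XX1 B C φ / (2 * √(XX A B C φ))

/-- `K = (√X)'' + √X/4 = N/(4 X^{3/2})`, `N = A² - B² - C²` -/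
noncomputable def KK (A B C φ : ℝ) : ℝ := (A ^ 2 - B ^ 2 - C ^ 2) / (4 * √(XX A B C φ) ^ 3)

/-- `-K'` -/
noncomputable def WW (A B C φ : ℝ) : ℝ :=
  3 / 8 * (A ^ 2 - B ^ 2 - C ^ 2) * XX1 B C φ / √(XX A B C φ) ^ 5

theorem hasDerivAt_sqrt {A B C φ : ℝ} (h : 0 < XX A B C φ) :
    HasDerivAt (fun φ => √(XX A B C φ)) (D1 A B C φ) φ :=
  (hasDerivAt_XX A B C φ).sqrt h.ne'

theorem hasDerivAt_D1 {A B C φ : ℝ} (h : 0 < XX A B C φ) :
    HasDerivAt (D1 A B C) (KK A B C φ - √(XX A B C φ) / 4) φ := by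
  unfold D1 KK
  have h1 := hasDerivAt_XX1 A B C φ
  have h2 := (hasDerivAt_sqrt h).const_mul 2
  have hs : 0 < √(XX A B C φ) := Real.sqrt_pos.2 h
  have hsq : √(XX A B C φ) ^ 2 = XX A B C φ := Real.sq_sqrt h.le
  have h3 := h1.div h2 (by positivity)
  refine h3.congr_deriv ?_
  rw [D1]
  have hrel : XX A B C φ * (2 * A - XX A B C φ) - XX1 B C φ ^ 2 = A ^ 2 - B ^ 2 - C ^ 2 := by
    unfold XX XX1
    have := Real.sin_sq_add_cos_sq φ
    linear_combination (- B ^ 2 - C ^ 2) * this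
  rw [← hrel]
  set S := √(XX A B C φ) with hS
  rw [← hsq]
  field_simp
  ring

theorem hasDerivAt_KK {A B C φ : ℝ} (h : 0 < XX A B C φ) :
    HasDerivAt (KK A B C) (- WW A B C φ) φ := by
  unfold KK WW
  have hs : 0 < √(XX A B C φ) := Real.sqrt_pos.2 h
  have h2 := ((hasDerivAt_sqrt h).pow 3).const_mul 4
  have hne : 4 * √(XX A B C φ) ^ 3 ≠ 0 := by positivity
  have h3 := (hasDerivAt_const φ (A ^ 2 - B ^ 2 - C ^ 2)).div h2 hne
  refine h3.congr_deriv ?_
  rw [D1]
  simp only [Pi.pow_apply]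
  field_simp
  ring

theorem continuous_XX (A B C : ℝ) : Continuous (XX A B C) := by unfold XX; fun_prop
theorem continuous_XX1 (B C : ℝ) : Continuous (XX1 B C) := by unfold XX1; fun_prop

/-- Green's identity for `√X`. -/
theorem green_sqrt {A B C a b : ℝ} (hab : b ≤ a) (hX : ∀ φ ∈ Icc b a, 0 < XX A B C φ)
    {p q q1 q2 : ℝ → ℝ} (hp : ∀ φ ∈ Icc b a, HasDerivAt p (q φ) φ)
    (hq : ∀ φ ∈ Icc b a, HasDerivAt q (q1 φ) φ) (hq1 : ∀ φ ∈ Icc b a, HasDerivAt q1 (q2 φ) φ)
    (hq2 : ContinuousOn q2 (Icc b a)) (pa : p a = 0) (pb : p b = 0) :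
    ∫ φ in b..a, √(XX A B C φ) * (q2 φ + q φ / 4) =
      (q1 a * √(XX A B C a) - q a * D1 A B C a) - (q1 b * √(XX A B C b) - q b * D1 A B C b)
      + ∫ φ in b..a, p φ * WW A B C φ := by
  have huI : uIcc b a = Icc b a := uIcc_of_le hab
  have cp : ContinuousOn p (Icc b a) := fun φ hφ => (hp φ hφ).continuousAt.continuousWithinAt
  have cq : ContinuousOn q (Icc b a) := fun φ hφ => (hq φ hφ).continuousAt.continuousWithinAt
  have cX : ContinuousOn (fun φ => √(XX A B C φ)) (Icc b a) :=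
    ((continuous_XX A B C).sqrt).continuousOn
  have cW : ContinuousOn (WW A B C) (Icc b a) := by
    unfold WW
    apply ContinuousOn.div
    · exact (continuous_const.mul (continuous_XX1 B C)).continuousOn
    · exact cX.pow 5
    · intro φ hφ
      have := Real.sqrt_pos.2 (hX φ hφ)
      positivity
  have i1 : IntervalIntegrable (fun φ => √(XX A B C φ) * (q2 φ + q φ / 4)) volume b a := by
    apply ContinuousOn.intervalIntegrable
    rw [huI]
    exact cX.mul (hq2.add (cq.div_const 4))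
  have i2 : IntervalIntegrable (fun φ => p φ * WW A B C φ) volume b a := by
    apply ContinuousOn.intervalIntegrable
    rw [huI]
    exact cp.mul cW
  have hF : ∀ φ ∈ uIcc b a, HasDerivAt
      (fun φ => q1 φ * √(XX A B C φ) - q φ * D1 A B C φ + p φ * KK A B C φ)
      (√(XX A B C φ) * (q2 φ + q φ / 4) - p φ * WW A B C φ) φ := by
    intro φ hφ
    rw [huI] at hφ
    have h := hX φ hφ
    have e1 := (hq1 φ hφ).mul (hasDerivAt_sqrt h)
    have e2 := (hq φ hφ).mul (hasDerivAt_D1 h)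
    have e3 := (hp φ hφ).mul (hasDerivAt_KK h)
    exact ((e1.sub e2).add e3).congr_deriv (by ring)
  have h := intervalIntegral.integral_eq_sub_of_hasDerivAt hF (i1.sub i2)
  rw [intervalIntegral.integral_sub i1 i2] at h
  rw [pa, pb] at h
  linarith

/-- derivative of `2 |sin ((φ - t)/2)|` -/
noncomputable def s1 (φ t : ℝ) : ℝ :=
  if t < φ then Real.cos ((φ - t) / 2) else -Real.cos ((φ - t) / 2)

theorem hasDerivAt_sinhalf (φ t : ℝ) :
    HasDerivAt (fun φ => 2 * Real.sin ((φ - t) / 2)) (Real.cos ((φ - t) / 2)) φ := by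
  have h1 : HasDerivAt (fun φ : ℝ => (φ - t) / 2) (1 / 2) φ :=
    ((hasDerivAt_id φ).sub_const t).div_const 2
  have h2 := (h1.sin).const_mul 2
  exact h2.congr_deriv (by ring)

theorem hasDerivAt_coshalf (φ t : ℝ) :
    HasDerivAt (fun φ => Real.cos ((φ - t) / 2)) (- (2 * Real.sin ((φ - t) / 2)) / 4) φ := by
  have h1 : HasDerivAt (fun φ : ℝ => (φ - t) / 2) (1 / 2) φ :=
    ((hasDerivAt_id φ).sub_const t).div_const 2
  have h2 := h1.cos
  exact h2.congr_deriv (by ring)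

/-- Green's identity on an interval for `2 sin ((φ - t)/2)`. -/
theorem green_sin {a b t : ℝ} (hab : b ≤ a)
    {q q1 q2 : ℝ → ℝ}
    (hq : ∀ φ ∈ Icc b a, HasDerivAt q (q1 φ) φ) (hq1 : ∀ φ ∈ Icc b a, HasDerivAt q1 (q2 φ) φ)
    (hq2 : ContinuousOn q2 (Icc b a)) :
    ∫ φ in b..a, (2 * Real.sin ((φ - t) / 2)) * (q2 φ + q φ / 4) =
      (q1 a * (2 * Real.sin ((a - t) / 2)) - q a * Real.cos ((a - t) / 2))
      - (q1 b * (2 * Real.sin ((b - t) / 2)) - q b * Real.cos ((b - t) / 2)) := by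
  have huI : uIcc b a = Icc b a := uIcc_of_le hab
  have cq : ContinuousOn q (Icc b a) := fun φ hφ => (hq φ hφ).continuousAt.continuousWithinAt
  have i1 : IntervalIntegrable (fun φ => (2 * Real.sin ((φ - t) / 2)) * (q2 φ + q φ / 4))
      volume b a := by
    apply ContinuousOn.intervalIntegrable
    rw [huI]
    have : Continuous (fun φ : ℝ => 2 * Real.sin ((φ - t) / 2)) := by fun_prop
    exact this.continuousOn.mul (hq2.add (cq.div_const 4))
  have hF : ∀ φ ∈ uIcc b a, HasDerivAt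
      (fun φ => q1 φ * (2 * Real.sin ((φ - t) / 2)) - q φ * Real.cos ((φ - t) / 2))
      ((2 * Real.sin ((φ - t) / 2)) * (q2 φ + q φ / 4)) φ := by
    intro φ hφ
    rw [huI] at hφ
    have e1 := (hq1 φ hφ).mul (hasDerivAt_sinhalf φ t)
    have e2 := (hq φ hφ).mul (hasDerivAt_coshalf φ t)
    exact (e1.sub e2).congr_deriv (by ring)
  exact intervalIntegral.integral_eq_sub_of_hasDerivAt hF i1

theorem abs_sin_of_le {φ t : ℝ} (hφ : φ ∈ Icc 0 th) (ht : t ∈ Icc 0 th) (h : t ≤ φ) :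
    |Real.sin ((φ - t) / 2)| = Real.sin ((φ - t) / 2) := by
  have hth : th = Real.pi / 3 := rfl
  have := Real.pi_pos
  apply abs_of_nonneg
  apply Real.sin_nonneg_of_nonneg_of_le_pi <;> linarith [hφ.1, hφ.2, ht.1, ht.2]

theorem abs_sin_of_ge {φ t : ℝ} (hφ : φ ∈ Icc 0 th) (ht : t ∈ Icc 0 th) (h : φ ≤ t) :
    |Real.sin ((φ - t) / 2)| = - Real.sin ((φ - t) / 2) := by
  have h1 := abs_sin_of_le ht hφ h
  have h2 : (φ - t) / 2 = - ((t - φ) / 2) := by ring
  rw [h2, Real.sin_neg, abs_neg, neg_neg, h1]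

theorem green_abs {a b t : ℝ} (hb0 : 0 ≤ b) (hab : b < a) (ha : a ≤ th) (ht : t ∈ Icc 0 th)
    (hta : t ≠ a) (htb : t ≠ b)
    {q q1 q2 : ℝ → ℝ}
    (hq : ∀ φ ∈ Icc b a, HasDerivAt q (q1 φ) φ) (hq1 : ∀ φ ∈ Icc b a, HasDerivAt q1 (q2 φ) φ)
    (hq2 : ContinuousOn q2 (Icc b a)) :
    ∫ φ in b..a, (2 * |Real.sin ((φ - t) / 2)|) * (q2 φ + q φ / 4) =
      (q1 a * (2 * |Real.sin ((a - t) / 2)|) - q a * s1 a t)
      - (q1 b * (2 * |Real.sin ((b - t) / 2)|) - q b * s1 b t)
      + (if b < t ∧ t < a then 2 * q t else 0) := by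
  have huI : uIcc b a = Icc b a := uIcc_of_le hab.le
  have hbI : b ∈ Icc 0 th := ⟨hb0, by linarith⟩
  have haI : a ∈ Icc 0 th := ⟨by linarith, ha⟩
  rcases lt_or_gt_of_ne htb with h1 | h1
  · -- t < b
    have h2 : ∫ φ in b..a, (2 * |Real.sin ((φ - t) / 2)|) * (q2 φ + q φ / 4)
        = ∫ φ in b..a, (2 * Real.sin ((φ - t) / 2)) * (q2 φ + q φ / 4) := by
      apply intervalIntegral.integral_congr
      intro φ hφ
      rw [huI] at hφ
      simp only
      rw [abs_sin_of_le ⟨by linarith [hφ.1], by linarith [hφ.2]⟩ ht (by linarith [hφ.1])]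
    rw [h2, green_sin hab.le hq hq1 hq2, if_neg (by push Not; intro h; linarith),
      abs_sin_of_le haI ht (by linarith), abs_sin_of_le hbI ht (by linarith), s1, s1,
      if_pos h1, if_pos (by linarith)]
    ring
  · rcases lt_or_gt_of_ne hta with h3 | h3
    · -- b < t < a
      have cq : ContinuousOn q (Icc b a) := fun φ hφ => (hq φ hφ).continuousAt.continuousWithinAt
      have cI : ContinuousOn (fun φ => (2 * |Real.sin ((φ - t) / 2)|) * (q2 φ + q φ / 4))
          (Icc b a) := by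
        have : Continuous (fun φ : ℝ => 2 * |Real.sin ((φ - t) / 2)|) := by fun_prop
        exact this.continuousOn.mul (hq2.add (cq.div_const 4))
      have i1 : IntervalIntegrable (fun φ => (2 * |Real.sin ((φ - t) / 2)|) * (q2 φ + q φ / 4))
          volume b t := by
        apply ContinuousOn.intervalIntegrable
        rw [uIcc_of_le h1.le]
        exact cI.mono (Icc_subset_Icc_right h3.le)
      have i2 : IntervalIntegrable (fun φ => (2 * |Real.sin ((φ - t) / 2)|) * (q2 φ + q φ / 4))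
          volume t a := by
        apply ContinuousOn.intervalIntegrable
        rw [uIcc_of_le h3.le]
        exact cI.mono (Icc_subset_Icc_left h1.le)
      rw [← intervalIntegral.integral_add_adjacent_intervals i1 i2]
      have h4 : ∫ φ in b..t, (2 * |Real.sin ((φ - t) / 2)|) * (q2 φ + q φ / 4)
          = -∫ φ in b..t, (2 * Real.sin ((φ - t) / 2)) * (q2 φ + q φ / 4) := by
        rw [← intervalIntegral.integral_neg]
        apply intervalIntegral.integral_congr
        intro φ hφ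
        rw [uIcc_of_le h1.le] at hφ
        simp only
        rw [abs_sin_of_ge ⟨by linarith [hφ.1], by linarith [hφ.2]⟩ ht (by linarith [hφ.2])]
        ring
      have h5 : ∫ φ in t..a, (2 * |Real.sin ((φ - t) / 2)|) * (q2 φ + q φ / 4)
          = ∫ φ in t..a, (2 * Real.sin ((φ - t) / 2)) * (q2 φ + q φ / 4) := by
        apply intervalIntegral.integral_congr
        intro φ hφ
        rw [uIcc_of_le h3.le] at hφ
        simp only
        rw [abs_sin_of_le ⟨by linarith [hφ.1], by linarith [hφ.2]⟩ ht (by linarith [hφ.1])]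
      rw [h4, h5,
        green_sin h1.le (fun φ hφ => hq φ ⟨hφ.1, by linarith [hφ.2]⟩)
          (fun φ hφ => hq1 φ ⟨hφ.1, by linarith [hφ.2]⟩) (hq2.mono (Icc_subset_Icc_right h3.le)),
        green_sin h3.le (fun φ hφ => hq φ ⟨by linarith [hφ.1], hφ.2⟩)
          (fun φ hφ => hq1 φ ⟨by linarith [hφ.1], hφ.2⟩) (hq2.mono (Icc_subset_Icc_left h1.le)),
        if_pos ⟨h1, h3⟩,
        abs_sin_of_le haI ht (by linarith), abs_sin_of_ge hbI ht (by linarith), s1, s1,
        if_pos h3, if_neg (by linarith)]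
      simp only [sub_self, zero_div, Real.sin_zero, Real.cos_zero]
      ring
    · -- a < t
      have h2 : ∫ φ in b..a, (2 * |Real.sin ((φ - t) / 2)|) * (q2 φ + q φ / 4)
          = -∫ φ in b..a, (2 * Real.sin ((φ - t) / 2)) * (q2 φ + q φ / 4) := by
        rw [← intervalIntegral.integral_neg]
        apply intervalIntegral.integral_congr
        intro φ hφ
        rw [huI] at hφ
        simp only
        rw [abs_sin_of_ge ⟨by linarith [hφ.1], by linarith [hφ.2]⟩ ht (by linarith [hφ.2])]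
        ring
      rw [h2, green_sin hab.le hq hq1 hq2, if_neg (by push Not; intro h; linarith),
        abs_sin_of_ge haI ht (by linarith), abs_sin_of_ge hbI ht (by linarith), s1, s1,
        if_neg (by linarith), if_neg (by linarith)]
      ring

/-- `∂_φ ker` -/
noncomputable def k1 (φ t : ℝ) : ℝ :=
  s1 φ t + D1 (Ab t) (Bb t) (Cb t) φ + D1 (Aa t) (Ba t) (Ca t) φ

noncomputable def W (φ t : ℝ) : ℝ := WW (Ab t) (Bb t) (Cb t) φ + WW (Aa t) (Ba t) (Ca t) φ

/-- The function `V`. -/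
noncomputable def V (p q : ℝ → ℝ) (b a t : ℝ) : ℝ :=
  (if b < t ∧ t < a then 2 * q t else 0) + ∫ φ in b..a, p φ * W φ t

theorem continuousOn_WW {A B C a b : ℝ} (hX : ∀ φ ∈ Icc b a, 0 < XX A B C φ) :
    ContinuousOn (WW A B C) (Icc b a) := by
  have cX : ContinuousOn (fun φ => √(XX A B C φ)) (Icc b a) :=
    ((continuous_XX A B C).sqrt).continuousOn
  unfold WW
  apply ContinuousOn.div
  · exact (continuous_const.mul (continuous_XX1 B C)).continuousOn
  · exact cX.pow 5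
  · intro φ hφ
    have := Real.sqrt_pos.2 (hX φ hφ)
    positivity

/-- Green's identity for the kernel. -/
theorem green_ker {a b t : ℝ} (hb0 : 0 ≤ b) (hab : b < a) (ha : a ≤ th) (ht : t ∈ Icc 0 th)
    (hta : t ≠ a) (htb : t ≠ b)
    (hXa : ∀ φ ∈ Icc b a, 0 < XX (Aa t) (Ba t) (Ca t) φ)
    (hXb : ∀ φ ∈ Icc b a, 0 < XX (Ab t) (Bb t) (Cb t) φ)
    {p q q1 q2 : ℝ → ℝ} (hp : ∀ φ ∈ Icc b a, HasDerivAt p (q φ) φ)
    (hq : ∀ φ ∈ Icc b a, HasDerivAt q (q1 φ) φ) (hq1 : ∀ φ ∈ Icc b a, HasDerivAt q1 (q2 φ) φ)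
    (hq2 : ContinuousOn q2 (Icc b a)) (pa : p a = 0) (pb : p b = 0) :
    ∫ φ in b..a, ker φ t * (q2 φ + q φ / 4) =
      (q1 a * ker a t - q a * k1 a t) - (q1 b * ker b t - q b * k1 b t) + V p q b a t := by
  have huI : uIcc b a = Icc b a := uIcc_of_le hab.le
  have cp : ContinuousOn p (Icc b a) := fun φ hφ => (hp φ hφ).continuousAt.continuousWithinAt
  have cq : ContinuousOn q (Icc b a) := fun φ hφ => (hq φ hφ).continuousAt.continuousWithinAt
  have cQ : ContinuousOn (fun φ => q2 φ + q φ / 4) (Icc b a) := hq2.add (cq.div_const 4)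
  have i1 : IntervalIntegrable (fun φ => (2 * |Real.sin ((φ - t) / 2)|) * (q2 φ + q φ / 4))
      volume b a := by
    apply ContinuousOn.intervalIntegrable
    rw [huI]
    have : Continuous (fun φ : ℝ => 2 * |Real.sin ((φ - t) / 2)|) := by fun_prop
    exact this.continuousOn.mul cQ
  have i2 : IntervalIntegrable (fun φ => √(XX (Ab t) (Bb t) (Cb t) φ) * (q2 φ + q φ / 4))
      volume b a := by
    apply ContinuousOn.intervalIntegrable
    rw [huI]
    exact ((continuous_XX _ _ _).sqrt).continuousOn.mul cQ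
  have i3 : IntervalIntegrable (fun φ => √(XX (Aa t) (Ba t) (Ca t) φ) * (q2 φ + q φ / 4))
      volume b a := by
    apply ContinuousOn.intervalIntegrable
    rw [huI]
    exact ((continuous_XX _ _ _).sqrt).continuousOn.mul cQ
  have i4 : IntervalIntegrable (fun φ => p φ * WW (Ab t) (Bb t) (Cb t) φ) volume b a := by
    apply ContinuousOn.intervalIntegrable
    rw [huI]
    exact cp.mul (continuousOn_WW hXb)
  have i5 : IntervalIntegrable (fun φ => p φ * WW (Aa t) (Ba t) (Ca t) φ) volume b a := by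
    apply ContinuousOn.intervalIntegrable
    rw [huI]
    exact cp.mul (continuousOn_WW hXa)
  have e0 : ∫ φ in b..a, ker φ t * (q2 φ + q φ / 4) =
      (∫ φ in b..a, (2 * |Real.sin ((φ - t) / 2)|) * (q2 φ + q φ / 4))
      + (∫ φ in b..a, √(XX (Ab t) (Bb t) (Cb t) φ) * (q2 φ + q φ / 4))
      + (∫ φ in b..a, √(XX (Aa t) (Ba t) (Ca t) φ) * (q2 φ + q φ / 4)) := by
    rw [← intervalIntegral.integral_add i1 i2, ← intervalIntegral.integral_add (i1.add i2) i3]
    apply intervalIntegral.integral_congr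
    intro φ hφ
    simp only [ker_eq]
    ring
  have e1 : ∫ φ in b..a, p φ * W φ t =
      (∫ φ in b..a, p φ * WW (Ab t) (Bb t) (Cb t) φ)
      + (∫ φ in b..a, p φ * WW (Aa t) (Ba t) (Ca t) φ) := by
    rw [← intervalIntegral.integral_add i4 i5]
    apply intervalIntegral.integral_congr
    intro φ hφ
    simp only [W]
    ring
  rw [e0, green_abs hb0 hab ha ht hta htb hq hq1 hq2,
    green_sqrt hab.le hXb hp hq hq1 hq2 pa pb, green_sqrt hab.le hXa hp hq hq1 hq2 pa pb,
    V, e1, k1, k1, ker_eq, ker_eq]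
  ring

end Pool.Agent.Helper342.Reul
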