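import Pool.Agent.Helper342.Reul.Final

namespace Pool.Agent.Helper342.Reul

open Set MeasureTheory Filter Topology
open scoped ENNReal NNReal

theorem no_const_ker {ν : Measure ℝ} (hprob : IsProbabilityMeasure ν) (hν : ν (Icc 0 th)ᶜ = 0)
    {Λ : ℝ} (hΛ : ∀ φ ∈ Icc 0 th, ∫ t, ker φ t ∂ν = Λ) : False := by
  have hthp := th_pos
  have hae := null_interior hν hΛ
  have hint : ∀ φ, ∫ t, ker φ t ∂ν = ν.real {0} * ker φ 0 + ν.real {th} * ker φ th := by
    intro φ
    have h1 : (fun t => ker φ t) =ᵐ[ν] fun t => ({0} : Set ℝ).indicator (fun _ => ker φ 0) t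
        + ({th} : Set ℝ).indicator (fun _ => ker φ th) t := by
      filter_upwards [hae] with t ht
      rcases ht with rfl | rfl
      · rw [indicator_of_mem (by simp), indicator_of_notMem (by simp [hthp.ne])]
        ring
      · rw [indicator_of_notMem (by simp [hthp.ne']), indicator_of_mem (by simp)]
        ring
    rw [integral_congr_ae h1, integral_add ((integrable_const _).indicator (measurableSet_singleton _))
      ((integrable_const _).indicator (measurableSet_singleton _)),
      integral_indicator_const _ (measurableSet_singleton _),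
      integral_indicator_const _ (measurableSet_singleton _), smul_eq_mul, smul_eq_mul]
  have hmass : ν.real {0} + ν.real {th} = 1 := by
    have h1 : (fun _ : ℝ => (1 : ℝ)) =ᵐ[ν] fun t => ({0} : Set ℝ).indicator (fun _ => 1) t
        + ({th} : Set ℝ).indicator (fun _ => 1) t := by
      filter_upwards [hae] with t ht
      rcases ht with rfl | rfl
      · rw [indicator_of_mem (by simp), indicator_of_notMem (by simp [hthp.ne])]
        ring
      · rw [indicator_of_notMem (by simp [hthp.ne']), indicator_of_mem (by simp)]
        ring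
    have h2 : ∫ _, (1 : ℝ) ∂ν = 1 := by simp
    rw [integral_congr_ae h1, integral_add ((integrable_const _).indicator (measurableSet_singleton _))
      ((integrable_const _).indicator (measurableSet_singleton _)),
      integral_indicator_const _ (measurableSet_singleton _),
      integral_indicator_const _ (measurableSet_singleton _), smul_eq_mul, smul_eq_mul] at h2
    linarith
  have e0 := hΛ 0 ⟨le_rfl, hthp.le⟩
  have e1 := hΛ th ⟨hthp.le, le_rfl⟩
  have e2 := hΛ (th / 2) ⟨by linarith, by linarith⟩
  rw [hint, ker_zero, ker_th] at e0 e1 e2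
  have n1 : ‖pA 0 - pA th‖ = 1 := by rw [norm_sub_rev]; exact norm_th
  rw [n1, sub_self, norm_zero] at e0
  rw [norm_th, sub_self, norm_zero] at e1
  have n2 : ‖pA (th / 2) - pA th‖ = ‖pA (th / 2) - pA 0‖ := by
    have := norm_pA_reflect (th / 2) 0
    rw [sub_zero, sub_half] at this
    exact this
  rw [n2] at e2
  have hx := norm_pA_sub_sq (th / 2) 0
  rw [sub_zero, th, show Real.pi / 3 / 2 = Real.pi / 6 by ring, Real.cos_pi_div_six] at hx
  rw [th, show Real.pi / 3 / 2 = Real.pi / 6 by ring] at e2
  rw [th] at e0 e1 hmass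
  set m0 := ν.real {0}
  set m1 := ν.real {Real.pi / 3}
  set x := ‖pA (Real.pi / 6) - pA 0‖
  have hm : m0 = 1 / 2 := by linarith
  have hm1 : m1 = 1 / 2 := by linarith
  rw [hm, hm1] at e2 e0
  have hx2 : x = 1 / 2 := by linarith
  rw [hx2] at hx
  have h3 : √3 = 7 / 4 := by linarith
  have := sqrt3_sq
  rw [h3] at this
  norm_num at this


end Pool.Agent.Helper342.Reul
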