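import Pool.Agent.Helper342.Reul.Defs

namespace Pool.Agent.Helper342.Reul

open Finset

section general

variable {X Y : Type*} [PseudoMetricSpace X] [PseudoMetricSpace Y]

theorem maxAvg_bdd {E : Set X} (hE : Bornology.IsBounded E) :
    BddAbove {r : ℝ | ∃ (n : ℕ) (x : Fin n → X), 1 ≤ n ∧ (∀ i, x i ∈ E) ∧
    r = (1 / (n : ℝ) ^ 2) * ∑ i, ∑ j, dist (x i) (x j)} := by
  obtain ⟨C, hC⟩ := Metric.isBounded_iff.1 hE
  refine ⟨C, ?_⟩
  rintro r ⟨n, x, hn, hx, rfl⟩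
  have hn0 : (0 : ℝ) < n := by exact_mod_cast hn
  have h1 : ∑ i, ∑ j, dist (x i) (x j) ≤ ∑ i : Fin n, ∑ j : Fin n, C := by
    apply Finset.sum_le_sum; intro i _
    apply Finset.sum_le_sum; intro j _
    exact hC (hx i) (hx j)
  have h2 : (∑ i : Fin n, ∑ j : Fin n, C) = (n : ℝ) ^ 2 * C := by
    simp; ring
  rw [h2] at h1
  have h3 : (1 / (n : ℝ) ^ 2) * ∑ i, ∑ j, dist (x i) (x j) ≤ (1 / (n : ℝ) ^ 2) * ((n : ℝ) ^ 2 * C) := by
    apply mul_le_mul_of_nonneg_left h1 (by positivity)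
  have h4 : (1 / (n : ℝ) ^ 2) * ((n : ℝ) ^ 2 * C) = C := by
    field_simp
  linarith

theorem rendezvous_bdd {E : Set X} (hE : Bornology.IsBounded E) :
    BddAbove {r : ℝ | ∃ (n : ℕ) (x : Fin n → X), 1 ≤ n ∧ (∀ i, x i ∈ E) ∧
    IsLeast {s : ℝ | ∃ y ∈ E, s = (1 / (n : ℝ)) * ∑ i, dist (x i) y} r} := by
  obtain ⟨C, hC⟩ := Metric.isBounded_iff.1 hE
  refine ⟨C, ?_⟩
  rintro r ⟨n, x, hn, hx, ⟨y, hy, rfl⟩, -⟩
  have hn0 : (0 : ℝ) < n := by exact_mod_cast hn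
  have h1 : ∑ i, dist (x i) y ≤ ∑ i : Fin n, C := by
    apply Finset.sum_le_sum; intro i _
    exact hC (hx i) hy
  have h2 : (∑ i : Fin n, C) = (n : ℝ) * C := by
    simp
  rw [h2] at h1
  have h3 : (1 / (n : ℝ)) * ∑ i, dist (x i) y ≤ (1 / (n : ℝ)) * ((n : ℝ) * C) := by
    apply mul_le_mul_of_nonneg_left h1 (by positivity)
  have h4 : (1 / (n : ℝ)) * ((n : ℝ) * C) = C := by
    field_simp
  linarith

theorem sum_le_maxAvg {E : Set X} (hE : Bornology.IsBounded E)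
    {ι : Type*} [Fintype ι] [Nonempty ι] (x : ι → X) (hx : ∀ i, x i ∈ E) :
    ∑ i, ∑ j, dist (x i) (x j) ≤ maxAvg E * (Fintype.card ι : ℝ) ^ 2 := by
  have hc : 1 ≤ Fintype.card ι := Fintype.card_pos
  have hc0 : (0 : ℝ) < Fintype.card ι := by exact_mod_cast hc
  let e := Fintype.equivFin ι
  have h := le_csSup (maxAvg_bdd hE)
    (show _ ∈ {r : ℝ | ∃ (n : ℕ) (x : Fin n → X), 1 ≤ n ∧ (∀ i, x i ∈ E) ∧
      r = (1 / (n : ℝ) ^ 2) * ∑ i, ∑ j, dist (x i) (x j)} from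
      ⟨Fintype.card ι, fun i => x (e.symm i), hc, fun i => hx _, rfl⟩)
  have h2 : ∑ i, ∑ j, dist (x (e.symm i)) (x (e.symm j)) = ∑ i, ∑ j, dist (x i) (x j) := by
    rw [← Equiv.sum_comp e.symm (fun i => ∑ j, dist (x i) (x j))]
    apply Finset.sum_congr rfl
    intro i _
    rw [← Equiv.sum_comp e.symm (fun j => dist (x (e.symm i)) (x j))]
  rw [h2] at h
  change _ ≤ maxAvg E at h
  have h3 := mul_le_mul_of_nonneg_right h (by positivity : (0:ℝ) ≤ (Fintype.card ι : ℝ)^2)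
  have h4 : (1 / (Fintype.card ι : ℝ) ^ 2 * ∑ i, ∑ j, dist (x i) (x j)) * (Fintype.card ι : ℝ) ^ 2
      = ∑ i, ∑ j, dist (x i) (x j) := by
    field_simp
  linarith

theorem maxAvg_nonneg (E : Set X) : 0 ≤ maxAvg E := by
  apply Real.sSup_nonneg
  rintro r ⟨n, x, hn, hx, rfl⟩
  positivity

/-- If `b(E) ≤ a(E)` then there are configurations whose potential is uniformly close to
`b(E)` on `E`. -/
theorem exists_config {E : Set X} (hE : IsCompact E) (hne : E.Nonempty)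
    (hab : maxAvg E ≤ rendezvous E) {ε : ℝ} (hε : 0 < ε) :
    ∃ (n : ℕ) (x : Fin n → X), 1 ≤ n ∧ (∀ i, x i ∈ E) ∧
      ∀ y ∈ E, |(1 / (n : ℝ)) * ∑ i, dist (x i) y - maxAvg E| ≤ ε := by
  set b := maxAvg E with hb
  have hb0 : 0 ≤ b := maxAvg_nonneg E
  obtain ⟨M, hM⟩ := exists_nat_gt (b / ε + 1)
  have hM1 : (1 : ℝ) < M := by
    have : 0 ≤ b / ε := by positivity
    linarith
  have hM0 : (0 : ℝ) < M := by linarith
  have hbM : b ≤ ε * M := by
    have h1 : b / ε < M := by linarith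
    rw [div_lt_iff₀ hε] at h1
    linarith
  set δ := ε / M with hδ
  have hδ0 : 0 < δ := by positivity
  have hMδ : M * δ = ε := by rw [hδ]; field_simp
  -- the sup set is nonempty
  have hnon : {r : ℝ | ∃ (n : ℕ) (x : Fin n → X), 1 ≤ n ∧ (∀ i, x i ∈ E) ∧
      IsLeast {s : ℝ | ∃ y ∈ E, s = (1 / (n : ℝ)) * ∑ i, dist (x i) y} r}.Nonempty := by
    obtain ⟨x0, hx0⟩ := hne
    obtain ⟨y, hy, hmin⟩ := hE.exists_isMinOn ⟨x0, hx0⟩
      (f := fun y => (1 / ((1 : ℕ) : ℝ)) * ∑ i : Fin 1, dist x0 y)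
      (by fun_prop)
    refine ⟨(1 / ((1 : ℕ) : ℝ)) * ∑ i : Fin 1, dist x0 y, 1, fun _ => x0, le_rfl, fun _ => hx0,
      ⟨y, hy, rfl⟩, ?_⟩
    rintro s ⟨z, hz, rfl⟩
    exact hmin hz
  have hlt : b - δ < rendezvous E := by linarith
  obtain ⟨r, ⟨n, x, hn, hx, hr⟩, hr2⟩ := exists_lt_of_lt_csSup hnon hlt
  have hn0 : (0 : ℝ) < n := by exact_mod_cast hn
  have hlow : ∀ y ∈ E, b - δ ≤ (1 / (n : ℝ)) * ∑ i, dist (x i) y := by
    intro y hy
    have := hr.2 ⟨y, hy, rfl⟩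
    linarith
  refine ⟨n, x, hn, hx, ?_⟩
  intro y hy
  have hS : ∀ y ∈ E, n * (b - δ) ≤ ∑ i, dist (x i) y := by
    intro y hy
    have h1 := mul_le_mul_of_nonneg_left (hlow y hy) hn0.le
    have h2 : (n : ℝ) * ((1 / (n : ℝ)) * ∑ i, dist (x i) y) = ∑ i, dist (x i) y := by
      field_simp
    linarith
  have hSS : n * (n * (b - δ)) ≤ ∑ i, ∑ j, dist (x i) (x j) := by
    rw [Finset.sum_comm]
    have : ∑ j : Fin n, (n * (b - δ)) ≤ ∑ j, ∑ i, dist (x i) (x j) :=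
      Finset.sum_le_sum (fun j _ => hS (x j) (hx j))
    simpa using this
  -- mixed configuration
  have : Nonempty (Fin n) := ⟨⟨0, hn⟩⟩
  let z : Fin n × Fin (M + 1) → X := fun p => Fin.cases y (fun _ => x p.1) p.2
  have hz : ∀ p, z p ∈ E := by
    rintro ⟨i, k⟩
    refine Fin.cases ?_ (fun k => ?_) k
    · exact hy
    · exact hx i
  have hmix := sum_le_maxAvg hE.isBounded z hz
  have hcard : (Fintype.card (Fin n × Fin (M + 1)) : ℝ) = n * (M + 1) := by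
    simp
  have hsum : ∑ p, ∑ q, dist (z p) (z q)
      = 2 * n * M * (∑ i, dist (x i) y) + M ^ 2 * ∑ i, ∑ j, dist (x i) (x j) := by
    simp only [Fintype.sum_prod_type, Fin.sum_univ_succ, z, Fin.cases_zero, Fin.cases_succ,
      dist_self, Finset.sum_const, Finset.card_univ, Fintype.card_fin, nsmul_eq_mul,
      Finset.sum_add_distrib, Finset.mul_sum, zero_add, mul_zero]
    have h1 : ∀ i, dist y (x i) = dist (x i) y := fun i => dist_comm _ _
    simp only [h1]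
    rw [← add_assoc, ← Finset.sum_add_distrib]
    congr 1
    · apply Finset.sum_congr rfl
      intro i _
      ring
    · apply Finset.sum_congr rfl
      intro i _
      apply Finset.sum_congr rfl
      intro j _
      ring
  rw [hsum, hcard, ← hb] at hmix
  rw [abs_le]
  constructor
  · have := hlow y hy
    have h5 : δ ≤ ε := by
      rw [hδ]; exact div_le_self hε.le hM1.le
    linarith
  · have hkey : 2 * n * M * (∑ i, dist (x i) y) ≤ n ^ 2 * (b * (2 * M + 1) + M ^ 2 * δ) := by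
      nlinarith [mul_le_mul_of_nonneg_left hSS (by positivity : (0:ℝ) ≤ (M:ℝ)^2)]
    have h6 : (1 / (n : ℝ)) * ∑ i, dist (x i) y = (2 * n * M * (∑ i, dist (x i) y)) / (2 * n ^ 2 * M) := by
      field_simp
    rw [h6]
    have h7 : (2 * n * M * (∑ i, dist (x i) y)) / (2 * n ^ 2 * M) ≤ (n ^ 2 * (b * (2 * M + 1) + M ^ 2 * δ)) / (2 * n ^ 2 * M) := by
      apply div_le_div_of_nonneg_right hkey (by positivity)
    have h8 : (n ^ 2 * (b * (2 * M + 1) + M ^ 2 * δ)) / (2 * n ^ 2 * M) = b + b / (2 * M) + (M * δ) / 2 := by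
      field_simp
    rw [h8, hMδ] at h7
    have h9 : b / (2 * M) ≤ ε / 2 := by
      rw [div_le_iff₀ (by positivity)]
      linarith
    linarith

theorem rendezvous_image {f : X → Y} (hf : Isometry f) (E : Set X) :
    rendezvous (f '' E) = rendezvous E := by
  unfold rendezvous
  congr 1
  ext r
  constructor
  · rintro ⟨n, x, hn, hx, hr⟩
    choose x' hx' hxx' using hx
    refine ⟨n, x', hn, hx', ?_⟩
    convert hr using 1
    ext s
    constructor
    · rintro ⟨y, hy, rfl⟩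
      refine ⟨f y, ⟨y, hy, rfl⟩, ?_⟩
      simp only [← hxx', hf.dist_eq]
    · rintro ⟨_, ⟨y, hy, rfl⟩, rfl⟩
      refine ⟨y, hy, ?_⟩
      simp only [← hxx', hf.dist_eq]
  · rintro ⟨n, x, hn, hx, hr⟩
    refine ⟨n, fun i => f (x i), hn, fun i => ⟨x i, hx i, rfl⟩, ?_⟩
    convert hr using 1
    ext s
    constructor
    · rintro ⟨_, ⟨y, hy, rfl⟩, rfl⟩
      refine ⟨y, hy, ?_⟩
      simp only [hf.dist_eq]
    · rintro ⟨y, hy, rfl⟩
      refine ⟨f y, ⟨y, hy, rfl⟩, ?_⟩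
      simp only [hf.dist_eq]

theorem maxAvg_image {f : X → Y} (hf : Isometry f) (E : Set X) :
    maxAvg (f '' E) = maxAvg E := by
  unfold maxAvg
  congr 1
  ext r
  constructor
  · rintro ⟨n, x, hn, hx, rfl⟩
    choose x' hx' hxx' using hx
    refine ⟨n, x', hn, hx', ?_⟩
    simp only [← hxx', hf.dist_eq]
  · rintro ⟨n, x, hn, hx, rfl⟩
    refine ⟨n, fun i => f (x i), hn, fun i => ⟨x i, hx i, rfl⟩, ?_⟩
    simp only [hf.dist_eq]

/-- A point of `E` at distance `≤ R` from all points of `E` bounds the rendezvous value. -/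
theorem rendezvous_le_of_center {E : Set X} {c : X} (hc : c ∈ E) {R : ℝ} (hR : 0 ≤ R)
    (h : ∀ x ∈ E, dist x c ≤ R) : rendezvous E ≤ R := by
  apply Real.sSup_le _ hR
  rintro r ⟨n, x, hn, hx, hr⟩
  have hn0 : (0 : ℝ) < n := by exact_mod_cast hn
  have h1 := hr.2 ⟨c, hc, rfl⟩
  have h2 : ∑ i, dist (x i) c ≤ ∑ i : Fin n, R := Finset.sum_le_sum (fun i _ => h (x i) (hx i))
  have h3 : (∑ i : Fin n, R) = n * R := by simp
  rw [h3] at h2
  have h4 := mul_le_mul_of_nonneg_left h2 (by positivity : (0:ℝ) ≤ 1 / (n : ℝ))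
  have h5 : (1 / (n : ℝ)) * (n * R) = R := by field_simp
  linarith

end general

end Pool.Agent.Helper342.Reul
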