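import Pool.Agent.Helper342.Reul.Local

namespace Pool.Agent.Helper342.Reul

open Set MeasureTheory

noncomputable def LL (a φ : ℝ) : ℝ := (1 / 5) * (Real.log a - Real.log φ)

noncomputable def HH (a α β φ : ℝ) : ℝ :=
  Real.exp (2 * LL a φ) * (α * Real.sin (LL a φ) + β * Real.cos (LL a φ))

noncomputable def rho : ℝ := Real.exp (-(5 * Real.pi))

noncomputable def pp (a φ : ℝ) : ℝ := HH a 1 0 φ
noncomputable def qq (a φ : ℝ) : ℝ := -(1 / (5 * φ)) * HH a 2 1 φ
noncomputable def qq1 (a φ : ℝ) : ℝ := (1 / φ ^ 2) * HH a (13 / 25) (9 / 25) φ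
noncomputable def qq2 (a φ : ℝ) : ℝ := (1 / φ ^ 3) * HH a (-147 / 125) (-121 / 125) φ

theorem hasDerivAt_LL (a : ℝ) {φ : ℝ} (h : φ ≠ 0) : HasDerivAt (LL a) (-(1 / (5 * φ))) φ := by
  unfold LL
  have h1 := ((Real.hasDerivAt_log h).const_sub (Real.log a)).const_mul (1 / 5)
  exact h1.congr_deriv (by field_simp)

theorem hasDerivAt_HH (a α β : ℝ) {φ : ℝ} (h : φ ≠ 0) :
    HasDerivAt (HH a α β) (-(1 / (5 * φ)) * HH a (2 * α - β) (2 * β + α) φ) φ := by
  unfold HH
  have h0 := hasDerivAt_LL a h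
  have h1 := (h0.const_mul 2).exp
  have h2 := (h0.sin.const_mul α).add (h0.cos.const_mul β)
  exact (h1.mul h2).congr_deriv (by simp only [Pi.add_apply]; ring)

theorem hasDerivAt_pp (a : ℝ) {φ : ℝ} (h : φ ≠ 0) : HasDerivAt (pp a) (qq a φ) φ := by
  have := hasDerivAt_HH a 1 0 h
  refine this.congr_deriv ?_
  rw [qq]; norm_num

theorem hasDerivAt_qq (a : ℝ) {φ : ℝ} (h : φ ≠ 0) : HasDerivAt (qq a) (qq1 a φ) φ := by
  have h1 := hasDerivAt_HH a 2 1 h
  have h2 : HasDerivAt (fun φ : ℝ => -(1 / (5 * φ))) (1 / (5 * φ ^ 2)) φ := by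
    have := ((hasDerivAt_inv h).const_mul (-(1 / 5)))
    have h3 : (fun φ : ℝ => -(1 / (5 * φ))) = (fun φ : ℝ => -(1 / 5) * φ⁻¹) := by
      ext x; rw [one_div, mul_inv]; ring
    rw [h3]
    exact this.congr_deriv (by field_simp)
  refine (h2.mul h1).congr_deriv ?_
  simp only [qq1, HH]
  field_simp
  ring

theorem hasDerivAt_qq1 (a : ℝ) {φ : ℝ} (h : φ ≠ 0) : HasDerivAt (qq1 a) (qq2 a φ) φ := by
  have h1 := hasDerivAt_HH a (13 / 25) (9 / 25) h
  have h2 : HasDerivAt (fun φ : ℝ => 1 / φ ^ 2) (-2 / φ ^ 3) φ := by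
    have := ((hasDerivAt_pow 2 φ).inv (by positivity))
    have h3 : (fun φ : ℝ => 1 / φ ^ 2) = (fun φ : ℝ => (φ ^ 2)⁻¹) := by
      ext x; rw [one_div]
    rw [h3]
    refine this.congr_deriv ?_
    push_cast
    field_simp
  refine (h2.mul h1).congr_deriv ?_
  simp only [qq2, HH]
  field_simp
  ring

theorem continuousOn_HH (a α β : ℝ) {s : Set ℝ} (hs : ∀ φ ∈ s, φ ≠ 0) :
    ContinuousOn (HH a α β) s := fun φ hφ =>
  (hasDerivAt_HH a α β (hs φ hφ)).continuousAt.continuousWithinAt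

theorem continuousOn_qq2 (a : ℝ) {s : Set ℝ} (hs : ∀ φ ∈ s, φ ≠ 0) :
    ContinuousOn (qq2 a) s := by
  unfold qq2
  apply ContinuousOn.mul
  · apply ContinuousOn.div continuousOn_const (by fun_prop)
    intro φ hφ; exact pow_ne_zero _ (hs φ hφ)
  · exact continuousOn_HH a _ _ hs

theorem rho_pos : 0 < rho := Real.exp_pos _

theorem rho_lt_one : rho < 1 := by
  unfold rho
  rw [Real.exp_lt_one_iff]
  linarith [Real.pi_pos]

theorem rho_ge : 1e-7 ≤ rho := by
  unfold rho
  have h1 : Real.exp (5 * Real.pi) ≤ 1e7 := by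
    have h2 : 5 * Real.pi ≤ 16 := by linarith [Real.pi_lt_d2]
    calc Real.exp (5 * Real.pi) ≤ Real.exp 16 := Real.exp_le_exp.2 h2
      _ = Real.exp 1 ^ 16 := by rw [← Real.exp_nat_mul]; norm_num
      _ ≤ 2.7182818286 ^ 16 := by
        have := Real.exp_one_lt_d9
        gcongr
      _ ≤ 1e7 := by norm_num
  rw [Real.exp_neg, le_inv_comm₀ (by norm_num) (Real.exp_pos _)]
  refine h1.trans ?_
  norm_num

theorem LL_self (a : ℝ) : LL a a = 0 := by unfold LL; ring

theorem LL_rho {a : ℝ} (ha : 0 < a) : LL a (rho * a) = Real.pi := by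
  unfold LL rho
  rw [Real.log_mul (Real.exp_pos _).ne' ha.ne', Real.log_exp]
  ring

theorem LL_mem {a φ : ℝ} (ha : 0 < a) (h : φ ∈ Icc (rho * a) a) : LL a φ ∈ Icc 0 Real.pi := by
  have hb : 0 < rho * a := mul_pos rho_pos ha
  constructor
  · rw [← LL_self a]
    unfold LL
    have := Real.log_le_log (by linarith [h.1]) h.2
    linarith
  · rw [← LL_rho ha]
    unfold LL
    have := Real.log_le_log hb h.1
    linarith

theorem LL_mem' {a φ : ℝ} (ha : 0 < a) (h : φ ∈ Ioo (rho * a) a) : LL a φ ∈ Ioo 0 Real.pi := by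
  have hb : 0 < rho * a := mul_pos rho_pos ha
  constructor
  · rw [← LL_self a]
    unfold LL
    have := Real.log_lt_log (by linarith [h.1]) h.2
    linarith
  · rw [← LL_rho ha]
    unfold LL
    have := Real.log_lt_log hb h.1
    linarith

theorem pp_self (a : ℝ) : pp a a = 0 := by
  simp [pp, HH, LL_self]

theorem pp_rho {a : ℝ} (ha : 0 < a) : pp a (rho * a) = 0 := by
  simp [pp, HH, LL_rho ha]

theorem HH_rho {a : ℝ} (ha : 0 < a) (α β : ℝ) :
    HH a α β (rho * a) = - β * Real.exp (2 * Real.pi) := by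
  simp [HH, LL_rho ha]
  ring

theorem pp_nonneg {a φ : ℝ} (ha : 0 < a) (h : φ ∈ Icc (rho * a) a) : 0 ≤ pp a φ := by
  have h1 := LL_mem ha h
  have h2 := Real.sin_nonneg_of_nonneg_of_le_pi h1.1 h1.2
  unfold pp HH
  have := Real.exp_pos (2 * LL a φ)
  rw [zero_mul, add_zero, one_mul]
  positivity

theorem pp_pos {a φ : ℝ} (ha : 0 < a) (h : φ ∈ Ioo (rho * a) a) : 0 < pp a φ := by
  have h1 := LL_mem' ha h
  have h2 := Real.sin_pos_of_pos_of_lt_pi h1.1 h1.2
  unfold pp HH
  have := Real.exp_pos (2 * LL a φ)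
  rw [zero_mul, add_zero, one_mul]
  positivity

theorem pp_le {a φ : ℝ} (ha : 0 < a) (h : φ ∈ Icc (rho * a) a) :
    pp a φ ≤ Real.exp (2 * Real.pi) := by
  have h1 := LL_mem ha h
  unfold pp HH
  rw [zero_mul, add_zero, one_mul]
  have e1 : Real.exp (2 * LL a φ) ≤ Real.exp (2 * Real.pi) := Real.exp_le_exp.2 (by linarith [h1.2])
  have e2 := Real.sin_le_one (LL a φ)
  have e3 := Real.sin_nonneg_of_nonneg_of_le_pi h1.1 h1.2
  calc Real.exp (2 * LL a φ) * Real.sin (LL a φ) ≤ Real.exp (2 * Real.pi) * 1 := by gcongr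
    _ = _ := mul_one _

theorem continuousOn_pp {a : ℝ} {s : Set ℝ} (hs : ∀ φ ∈ s, φ ≠ 0) : ContinuousOn (pp a) s :=
  continuousOn_HH a 1 0 hs

theorem continuousOn_W {b a t : ℝ} (hb : 0 < b) (ha : a ≤ 1 / 2000) (ht : t ∈ Icc 0 th) :
    ContinuousOn (fun φ => W φ t) (Icc b a) := by
  unfold W
  apply ContinuousOn.add
  · exact continuousOn_WW (fun φ hφ => XXb_pos (by linarith [hφ.1]) (by linarith [hφ.2]) ht)
  · exact continuousOn_WW (fun φ hφ => XXa_pos (by linarith [hφ.1]) (by linarith [hφ.2]) ht)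

theorem continuousOn_pW {b a t : ℝ} (hb : 0 < b) (ha : a ≤ 1 / 2000) (ht : t ∈ Icc 0 th)
    (a' : ℝ) : ContinuousOn (fun φ => pp a' φ * W φ t) (Icc b a) := by
  apply ContinuousOn.mul _ (continuousOn_W hb ha ht)
  exact continuousOn_pp (fun φ hφ => by have := hφ.1; intro h; linarith)

/-- (B) the bound near `0` -/
theorem V_lower_zero {a t : ℝ} (ha : 0 < a) (ha1 : a ≤ 1 / 2000) (ht : t ∈ Icc 0 th)
    (htb : t < rho * a) : - (Real.exp (2 * Real.pi) * a * t) ≤ V (pp a) (qq a) (rho * a) a t := by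
  have hb : 0 < rho * a := mul_pos rho_pos ha
  have hba : rho * a ≤ a := by nlinarith [rho_lt_one]
  rw [V, if_neg (by push Not; intro h; linarith), zero_add]
  have h1 : ∫ φ in (rho * a)..a, (-(Real.exp (2 * Real.pi) * t)) ≤
      ∫ φ in (rho * a)..a, pp a φ * W φ t := by
    apply intervalIntegral.integral_mono_on hba
    · exact intervalIntegrable_const
    · apply ContinuousOn.intervalIntegrable
      rw [uIcc_of_le hba]
      exact continuousOn_pW hb ha1 ht a
    · intro φ hφ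
      have e1 := pp_nonneg ha hφ
      have e2 := pp_le ha hφ
      have e3 := W_ge_neg (by linarith [hφ.1] : 0 < φ) (by linarith [hφ.2]) ht
      have e4 : 0 ≤ t := ht.1
      have e5 : pp a φ * (-t) ≤ pp a φ * W φ t := mul_le_mul_of_nonneg_left e3 e1
      have e6 : pp a φ * t ≤ Real.exp (2 * Real.pi) * t := mul_le_mul_of_nonneg_right e2 e4
      linarith
  rw [intervalIntegral.integral_const, smul_eq_mul] at h1
  refine le_trans ?_ h1
  have e4 : 0 ≤ t := ht.1
  have e7 : 0 ≤ Real.exp (2 * Real.pi) * t := by positivity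
  nlinarith

/-- (C) positivity beyond `a` -/
theorem V_pos {a t : ℝ} (ha : 0 < a) (ha1 : a ≤ 1 / 2000) (ht : t ∈ Icc 0 th)
    (hta : a ≤ t) (ht2 : t < th) : 0 < V (pp a) (qq a) (rho * a) a t := by
  have hb : 0 < rho * a := mul_pos rho_pos ha
  have hba : rho * a < a := by nlinarith [rho_lt_one]
  rw [V, if_neg (by push Not; intro h; linarith), zero_add]
  apply intervalIntegral.intervalIntegral_pos_of_pos_on
  · apply ContinuousOn.intervalIntegrable
    rw [uIcc_of_le hba.le]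
    exact continuousOn_pW hb ha1 ht a
  · intro φ hφ
    have e1 := pp_pos ha hφ
    have e2 := W_pos (by linarith [hφ.1] : 0 < φ) (by linarith [hφ.2]) ht ht2
      (by linarith [hφ.1, hφ.2])
    positivity
  · exact hba

theorem V_nonneg {a t : ℝ} (ha : 0 < a) (ha1 : a ≤ 1 / 2000) (ht : t ∈ Icc 0 th)
    (hta : a ≤ t) : 0 ≤ V (pp a) (qq a) (rho * a) a t := by
  have hb : 0 < rho * a := mul_pos rho_pos ha
  have hba : rho * a < a := by nlinarith [rho_lt_one]
  rw [V, if_neg (by push Not; intro h; linarith), zero_add]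
  apply intervalIntegral.integral_nonneg hba.le
  intro φ hφ
  have e1 := pp_nonneg ha hφ
  have e2 := W_nonneg (by linarith [hφ.1] : 0 < φ) (by linarith [hφ.2]) ht
    (by linarith [hφ.1, hφ.2])
  positivity

/-- (A) the key bound -/
theorem V_lower_mid {a t : ℝ} (ha : 0 < a) (ha1 : a ≤ 1 / 2000) (ht : t ∈ Icc 0 th)
    (htb : rho * a < t) (hta : t < a) :
    Real.exp (2 * Real.pi) * rho / 4 / a ≤ V (pp a) (qq a) (rho * a) a t := by
  have hb : 0 < rho * a := mul_pos rho_pos ha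
  have hba : rho * a < a := by nlinarith [rho_lt_one]
  have ht0 : 0 < t := by linarith
  have hW : ∀ φ ∈ Icc (rho * a) a, 0 ≤ W φ t := fun φ hφ =>
    W_nonneg (by linarith [hφ.1] : 0 < φ) (by linarith [hφ.2]) ht (by
      have := rho_ge
      have h1 : 1e-7 * φ ≤ rho * a := by
        have : 1e-7 * φ ≤ 1e-7 * a := by linarith [hφ.2]
        nlinarith
      linarith)
  have hcont := continuousOn_pW hb ha1 ht a
  have i1 : IntervalIntegrable (fun φ => pp a φ * W φ t) volume (rho * a) t := by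
    apply ContinuousOn.intervalIntegrable
    rw [uIcc_of_le htb.le]
    exact hcont.mono (Icc_subset_Icc_right hta.le)
  have i2 : IntervalIntegrable (fun φ => pp a φ * W φ t) volume t a := by
    apply ContinuousOn.intervalIntegrable
    rw [uIcc_of_le hta.le]
    exact hcont.mono (Icc_subset_Icc_left htb.le)
  have h1 : ∫ φ in (rho * a)..t, pp a φ * W φ t ≤ ∫ φ in (rho * a)..a, pp a φ * W φ t := by
    rw [← intervalIntegral.integral_add_adjacent_intervals i1 i2]
    have : 0 ≤ ∫ φ in t..a, pp a φ * W φ t := by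
      apply intervalIntegral.integral_nonneg hta.le
      intro φ hφ
      have hφ' : φ ∈ Icc (rho * a) a := ⟨by linarith [hφ.1], hφ.2⟩
      exact mul_nonneg (pp_nonneg ha hφ') (hW φ hφ')
    linarith
  -- the explicit antiderivative
  set c2 : ℝ := 2210 / 2311 with hc2
  let G : ℝ → ℝ := fun φ => c2 / t ^ 2 * (φ * HH a (3 / 2) (1 / 2) φ
    - 6 / 5 / t * (φ ^ 2 * HH a (8 / 13) (1 / 13) φ)
    + 9 / 25 / t ^ 2 * (φ ^ 3 * HH a (13 / 34) (1 / 34) φ))
  have hG : ∀ φ ∈ uIcc (rho * a) t, HasDerivAt G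
      (pp a φ * (c2 * (1 - 0.6 * (φ / t)) ^ 2 / t ^ 2)) φ := by
    intro φ hφ
    rw [uIcc_of_le htb.le] at hφ
    have hφ0 : φ ≠ 0 := by linarith [hφ.1]
    have a1 := (hasDerivAt_id φ).mul (hasDerivAt_HH a (3 / 2) (1 / 2) hφ0)
    have a2 := (hasDerivAt_pow 2 φ).mul (hasDerivAt_HH a (8 / 13) (1 / 13) hφ0)
    have a3 := (hasDerivAt_pow 3 φ).mul (hasDerivAt_HH a (13 / 34) (1 / 34) hφ0)
    have a4 := ((a1.sub (a2.const_mul (6 / 5 / t))).add (a3.const_mul (9 / 25 / t ^ 2))).const_mul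
      (c2 / t ^ 2)
    refine a4.congr_deriv ?_
    simp only [pp, HH, id]
    push_cast
    field_simp
    ring
  have i3 : IntervalIntegrable (fun φ => pp a φ * (c2 * (1 - 0.6 * (φ / t)) ^ 2 / t ^ 2)) volume
      (rho * a) t := by
    apply ContinuousOn.intervalIntegrable
    rw [uIcc_of_le htb.le]
    apply ContinuousOn.mul
    · exact continuousOn_pp (fun φ hφ => by linarith [hφ.1])
    · fun_prop
  have h2 : G t - G (rho * a) ≤ ∫ φ in (rho * a)..t, pp a φ * W φ t := by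
    rw [← intervalIntegral.integral_eq_sub_of_hasDerivAt hG i3]
    apply intervalIntegral.integral_mono_on htb.le i3 i1
    intro φ hφ
    have hφ' : φ ∈ Icc (rho * a) a := ⟨hφ.1, by linarith [hφ.2]⟩
    apply mul_le_mul_of_nonneg_left _ (pp_nonneg ha hφ')
    have hφ0 : 0 < φ := by linarith [hφ.1]
    have := W_local (x := φ / t) (t := t) (by positivity) ((div_le_one ht0).2 hφ.2) ht0
      (by linarith)
    rw [div_mul_cancel₀ _ ht0.ne'] at this
    refine le_trans ?_ this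
    have h5 : c2 ≤ 0.957 := by rw [hc2]; norm_num
    gcongr
  have h3 : G t = c2 / t * HH a (3 / 2 - 48 / 65 + 117 / 850) (1 / 2 - 6 / 65 + 9 / 850) t := by
    simp only [G, HH]
    field_simp
    ring
  have h4 : G (rho * a) = - (c2 / t ^ 2 * Real.exp (2 * Real.pi) * (rho * a)
      * (1 / 2 - 6 / 65 * (rho * a / t) + 9 / 850 * (rho * a / t) ^ 2)) := by
    simp only [G, HH_rho ha]
    field_simp
    ring
  rw [V, if_pos ⟨htb, hta⟩]
  have h5 : 2 * qq a t + G t = (1 / t) * HH a (c2 * (3 / 2 - 48 / 65 + 117 / 850) - 4 / 5) 0 t := by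
    rw [h3, hc2, qq]
    simp only [HH]
    field_simp
    ring
  have h6 : 0 ≤ (1 / t) * HH a (c2 * (3 / 2 - 48 / 65 + 117 / 850) - 4 / 5) 0 t := by
    have h7 : 0 ≤ c2 * (3 / 2 - 48 / 65 + 117 / 850) - 4 / 5 := by rw [hc2]; norm_num
    have h8 := LL_mem ha ⟨htb.le, hta.le⟩
    have h9 := Real.sin_nonneg_of_nonneg_of_le_pi h8.1 h8.2
    unfold HH
    rw [zero_mul, add_zero]
    positivity
  have h10 : Real.exp (2 * Real.pi) * rho / 4 / a ≤ - G (rho * a) := by
    rw [h4, neg_neg]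
    have hx0 : 0 < rho * a / t := by positivity
    have hx1 : rho * a / t ≤ 1 := (div_le_one ht0).2 htb.le
    have e1 : 53 / 130 ≤ 1 / 2 - 6 / 65 * (rho * a / t) + 9 / 850 * (rho * a / t) ^ 2 := by
      nlinarith [sq_nonneg (rho * a / t)]
    have e2 : c2 / a ^ 2 ≤ c2 / t ^ 2 := by
      rw [hc2]; gcongr
    have e3 : 0 < rho := rho_pos
    calc Real.exp (2 * Real.pi) * rho / 4 / a
        ≤ c2 / a ^ 2 * Real.exp (2 * Real.pi) * (rho * a) * (53 / 130) := by
          rw [hc2]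
          have : 0 < Real.exp (2 * Real.pi) * rho / a := by positivity
          have e4 : 2210 / 2311 / a ^ 2 * Real.exp (2 * Real.pi) * (rho * a) * (53 / 130)
            = (2210 / 2311 * (53 / 130)) * (Real.exp (2 * Real.pi) * rho / a) := by
            field_simp
          have e5 : Real.exp (2 * Real.pi) * rho / 4 / a = (1 / 4) * (Real.exp (2 * Real.pi) * rho / a) := by
            field_simp
          rw [e4, e5]
          apply mul_le_mul_of_nonneg_right _ this.le
          norm_num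
      _ ≤ _ := by gcongr
  linarith

end Pool.Agent.Helper342.Reul
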