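import Pool.Agent.Helper342.Reul.Ker

namespace Pool.Agent.Helper342.Reul

open Set

theorem sin_eq_half (t : ℝ) : Real.sin t = 2 * Real.sin (t / 2) * Real.cos (t / 2) := by
  have := Real.sin_two_mul (t / 2)
  rwa [show 2 * (t / 2) = t by ring] at this

theorem cos_eq_half (t : ℝ) : Real.cos t = 1 - 2 * Real.sin (t / 2) ^ 2 := by
  have := Real.cos_two_mul (t / 2)
  rw [show 2 * (t / 2) = t by ring] at this
  rw [this]
  have := Real.sin_sq_add_cos_sq (t / 2)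
  linarith

theorem Na_eq (t : ℝ) : Aa t ^ 2 - Ba t ^ 2 - Ca t ^ 2
    = 4 * Real.sin (t / 2) ^ 2 * (√3 * Real.cos (t / 2) - Real.sin (t / 2)) ^ 2 := by
  unfold Aa Ba Ca
  rw [sin_eq_half t, cos_eq_half t]
  have h1 := Real.sin_sq_add_cos_sq (t / 2)
  have h3 := sqrt3_sq
  generalize Real.sin (t / 2) = u at *
  generalize Real.cos (t / 2) = v at *
  generalize (√3 : ℝ) = r at *
  have hv : v ^ 2 = 1 - u ^ 2 := by linarith
  have e : (3 - (1 - 2 * u ^ 2) - r * (2 * u * v)) ^ 2 - (1 + (1 - 2 * u ^ 2) - r * (2 * u * v)) ^ 2 -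
      (r - r * (1 - 2 * u ^ 2) - 2 * u * v) ^ 2 - 4 * u ^ 2 * (r * v - u) ^ 2
      = 16 * u ^ 2 - 4 * u ^ 4 - 4 * u ^ 2 * v ^ 2 - 4 * u ^ 4 * r ^ 2 - 4 * u ^ 2 * v ^ 2 * r ^ 2 := by ring
  have e2 : 16 * u ^ 2 - 4 * u ^ 4 - 4 * u ^ 2 * v ^ 2 - 4 * u ^ 4 * r ^ 2 - 4 * u ^ 2 * v ^ 2 * r ^ 2 = 0 := by
    rw [h3, hv]; ring
  linarith

theorem Nb_eq (t : ℝ) : Ab t ^ 2 - Bb t ^ 2 - Cb t ^ 2
    = (1 - 4 * Real.sin (t / 2) ^ 2) ^ 2 := by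
  unfold Ab Bb Cb
  rw [sin_eq_half t, cos_eq_half t]
  have h1 := Real.sin_sq_add_cos_sq (t / 2)
  generalize Real.sin (t / 2) = u at *
  generalize Real.cos (t / 2) = v at *
  have hv : v ^ 2 = 1 - u ^ 2 := by linarith
  have e : (2 * (2 * u * v)) ^ 2 = 16 * u ^ 2 * v ^ 2 := by ring
  rw [e, hv]; ring

theorem XX1a_eq (φ t : ℝ) : XX1 (Ba t) (Ca t) φ
    = 2 * (Real.cos (t / 2) - √3 * Real.sin (t / 2)) * Real.sin (φ + t / 2) := by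
  unfold XX1 Ba Ca
  rw [sin_eq_half t, cos_eq_half t, Real.sin_add]
  have h1 := Real.sin_sq_add_cos_sq (t / 2)
  generalize Real.sin (t / 2) = u at *
  generalize Real.cos (t / 2) = v at *
  generalize (√3 : ℝ) = r at *
  linear_combination (-2 * Real.sin φ) * h1

theorem XX1b_eq (φ t : ℝ) : XX1 (Bb t) (Cb t) φ
    = - 4 * Real.sin (t / 2) * Real.cos (φ + t / 2) := by
  unfold XX1 Bb Cb
  rw [sin_eq_half t, cos_eq_half t, Real.cos_add]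
  ring

theorem XXa_eq (φ t : ℝ) : XX (Aa t) (Ba t) (Ca t) φ
    = 4 * Real.sin (φ / 2) ^ 2 * Real.cos (t / 2) ^ 2
      + 4 * Real.sin (t / 2) ^ 2 * (1 - √3 * Real.sin (φ / 2) * Real.cos (φ / 2))
      + 4 * Real.sin (t / 2) * Real.sin (φ / 2) * Real.cos (t / 2)
        * (Real.cos (φ / 2) - √3 * Real.sin (φ / 2)) := by
  unfold XX Aa Ba Ca
  rw [sin_eq_half t, cos_eq_half t, sin_eq_half φ, cos_eq_half φ]
  have h1 := Real.sin_sq_add_cos_sq (t / 2)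
  generalize Real.sin (t / 2) = u at *
  generalize Real.cos (t / 2) = v at *
  generalize Real.sin (φ / 2) = s at *
  generalize Real.cos (φ / 2) = c at *
  generalize (√3 : ℝ) = r at *
  linear_combination (-4 * s ^ 2) * h1

theorem XXb_eq (φ t : ℝ) : XX (Ab t) (Bb t) (Cb t) φ
    = 1 + 8 * Real.sin (t / 2) ^ 2 * Real.sin (φ / 2) ^ 2
      - 8 * Real.sin (t / 2) * Real.cos (t / 2) * Real.sin (φ / 2) * Real.cos (φ / 2) := by
  unfold XX Ab Bb Cb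
  rw [sin_eq_half t, cos_eq_half t, sin_eq_half φ, cos_eq_half φ]
  ring

/-- basic bounds for `u = sin (t/2)`, `v = cos (t/2)`. -/
theorem uv_bounds {t : ℝ} (ht : t ∈ Icc 0 th) :
    0 ≤ Real.sin (t / 2) ∧ Real.sin (t / 2) ≤ 1 / 2 ∧ √3 / 2 ≤ Real.cos (t / 2) ∧
      Real.cos (t / 2) ≤ 1 := by
  have hth : th = Real.pi / 3 := rfl
  have hpi := Real.pi_pos
  obtain ⟨h0, h1⟩ := ht
  refine ⟨Real.sin_nonneg_of_nonneg_of_le_pi (by linarith) (by linarith), ?_, ?_,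
    Real.cos_le_one _⟩
  · rw [← Real.sin_pi_div_six]
    exact Real.sin_le_sin_of_le_of_le_pi_div_two (by linarith) (by linarith) (by linarith)
  · rw [← Real.cos_pi_div_six]
    exact Real.cos_le_cos_of_nonneg_of_le_pi (by linarith) (by linarith) (by linarith)

theorem sc_bounds {φ : ℝ} (h0 : 0 < φ) (h1 : φ ≤ 1 / 2000) :
    0 < Real.sin (φ / 2) ∧ Real.sin (φ / 2) ≤ φ / 2 ∧ 0.9999 ≤ Real.cos (φ / 2) ∧
      Real.cos (φ / 2) ≤ 1 := by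
  have hpi := Real.pi_gt_three
  refine ⟨Real.sin_pos_of_pos_of_lt_pi (by linarith) (by linarith),
    Real.sin_le (by linarith), ?_, Real.cos_le_one _⟩
  have := Real.one_sub_sq_div_two_le_cos (x := φ / 2)
  nlinarith

theorem sqrt3_bounds : 1.732 < √3 ∧ √3 < 1.7321 := by
  constructor
  · rw [Real.lt_sqrt (by norm_num)]; norm_num
  · rw [Real.sqrt_lt' (by norm_num)]; norm_num

theorem XXa_pos {φ t : ℝ} (h0 : 0 < φ) (h1 : φ ≤ 1 / 2000) (ht : t ∈ Icc 0 th) :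
    0 < XX (Aa t) (Ba t) (Ca t) φ := by
  rw [XXa_eq]
  obtain ⟨hu0, hu1, hv0, hv1⟩ := uv_bounds ht
  obtain ⟨hs0, hs1, hc0, hc1⟩ := sc_bounds h0 h1
  obtain ⟨r0, r1⟩ := sqrt3_bounds
  have hs2 : Real.sin (φ / 2) ≤ 1 / 4000 := by linarith
  have hv : 0 < Real.cos (t / 2) := by linarith
  have h2 : 0 ≤ 1 - √3 * Real.sin (φ / 2) * Real.cos (φ / 2) := by
    have : √3 * Real.sin (φ / 2) * Real.cos (φ / 2) ≤ 1.7321 * (1 / 4000) * 1 := by gcongr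
    linarith
  have h3 : 0 ≤ Real.cos (φ / 2) - √3 * Real.sin (φ / 2) := by
    have : √3 * Real.sin (φ / 2) ≤ 1.7321 * (1 / 4000) := by gcongr
    linarith
  positivity

theorem XXb_ge {φ t : ℝ} (h0 : 0 < φ) (h1 : φ ≤ 1 / 2000) (ht : t ∈ Icc 0 th) :
    0.999 ≤ XX (Ab t) (Bb t) (Cb t) φ := by
  rw [XXb_eq]
  obtain ⟨hu0, hu1, hv0, hv1⟩ := uv_bounds ht
  obtain ⟨hs0, hs1, hc0, hc1⟩ := sc_bounds h0 h1
  obtain ⟨r0, r1⟩ := sqrt3_bounds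
  have hs2 : Real.sin (φ / 2) ≤ 1 / 4000 := by linarith
  have hv : 0 < Real.cos (t / 2) := by linarith
  have h2 : 8 * Real.sin (t / 2) * Real.cos (t / 2) * Real.sin (φ / 2) * Real.cos (φ / 2)
      ≤ 8 * (1 / 2) * 1 * (1 / 4000) * 1 := by gcongr
  have h3 : 0 ≤ 8 * Real.sin (t / 2) ^ 2 * Real.sin (φ / 2) ^ 2 := by positivity
  linarith

theorem XXb_pos {φ t : ℝ} (h0 : 0 < φ) (h1 : φ ≤ 1 / 2000) (ht : t ∈ Icc 0 th) :
    0 < XX (Ab t) (Bb t) (Cb t) φ := lt_of_lt_of_le (by norm_num) (XXb_ge h0 h1 ht)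

theorem XXa_le {φ t : ℝ} (h0 : 0 < φ) (h1 : φ ≤ 1 / 2000) (ht : t ∈ Icc 0 th) :
    XX (Aa t) (Ba t) (Ca t) φ ≤ 4 * (Real.sin (t / 2) ^ 2 + Real.sin (t / 2) * Real.sin (φ / 2)
      + Real.sin (φ / 2) ^ 2) := by
  rw [XXa_eq]
  obtain ⟨hu0, hu1, hv0, hv1⟩ := uv_bounds ht
  obtain ⟨hs0, hs1, hc0, hc1⟩ := sc_bounds h0 h1
  obtain ⟨r0, r1⟩ := sqrt3_bounds
  have hv : 0 < Real.cos (t / 2) := by linarith
  have hv2 : Real.cos (t / 2) ^ 2 ≤ 1 := by nlinarith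
  have hs2 : Real.sin (φ / 2) ≤ 1 / 4000 := by linarith
  have h3 : 0 ≤ Real.cos (φ / 2) - √3 * Real.sin (φ / 2) := by
    have : √3 * Real.sin (φ / 2) ≤ 1.7321 * (1 / 4000) := by gcongr
    linarith
  have h4 : Real.cos (φ / 2) - √3 * Real.sin (φ / 2) ≤ 1 := by
    have : 0 ≤ √3 * Real.sin (φ / 2) := by positivity
    linarith
  have h2 : 0 ≤ √3 * Real.sin (φ / 2) * Real.cos (φ / 2) := by positivity
  have e1 : 4 * Real.sin (φ / 2) ^ 2 * Real.cos (t / 2) ^ 2 ≤ 4 * Real.sin (φ / 2) ^ 2 * 1 := by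
    gcongr
  have e2 : 4 * Real.sin (t / 2) ^ 2 * (1 - √3 * Real.sin (φ / 2) * Real.cos (φ / 2))
      ≤ 4 * Real.sin (t / 2) ^ 2 * 1 := by
    gcongr; linarith
  have e3 : 4 * Real.sin (t / 2) * Real.sin (φ / 2) * Real.cos (t / 2)
        * (Real.cos (φ / 2) - √3 * Real.sin (φ / 2))
      ≤ 4 * Real.sin (t / 2) * Real.sin (φ / 2) * 1 * 1 := by
    gcongr
  linarith

theorem W_eq (φ t : ℝ) : W φ t =
    3 / 8 * (4 * Real.sin (t / 2) ^ 2 * (√3 * Real.cos (t / 2) - Real.sin (t / 2)) ^ 2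
      * (2 * (Real.cos (t / 2) - √3 * Real.sin (t / 2)) * Real.sin (φ + t / 2))
      / √(XX (Aa t) (Ba t) (Ca t) φ) ^ 5)
    - 3 / 8 * ((1 - 4 * Real.sin (t / 2) ^ 2) ^ 2 * (4 * Real.sin (t / 2) * Real.cos (φ + t / 2))
      / √(XX (Ab t) (Bb t) (Cb t) φ) ^ 5) := by
  rw [W, WW, WW, Na_eq, Nb_eq, XX1a_eq, XX1b_eq]
  ring

end Pool.Agent.Helper342.Reul
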